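import Mathlib

/-!
Products `a * b` in short intervals: a lattice-point argument of Farey-arc type.
-/

namespace MP14ee70

open Finset

/-- For coprime `p`, `q` every integer `k` is `b * q + j * p` with `0 ≤ j < q`. -/
theorem exists_rep (w : ℚ) (k : ℤ) :
    ∃ j : ℕ, j < w.den ∧ ∃ b : ℤ, b * (w.den : ℤ) + (j : ℤ) * w.num = k := by
  have hq : (0 : ℤ) < (w.den : ℤ) := by exact_mod_cast w.den_pos
  have hcop : IsCoprime w.num (w.den : ℤ) := by
    rw [Int.isCoprime_iff_gcd_eq_one]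
    have := w.reduced
    rw [Int.gcd, Int.natAbs_natCast]
    exact this
  obtain ⟨u, v, huv⟩ := hcop
  have hnn : 0 ≤ (k * u) % (w.den : ℤ) := Int.emod_nonneg _ hq.ne'
  have hlt : (k * u) % (w.den : ℤ) < (w.den : ℤ) := Int.emod_lt_of_pos _ hq
  refine ⟨((k * u) % (w.den : ℤ)).toNat, ?_, ?_⟩
  · have : ((((k * u) % (w.den : ℤ)).toNat : ℕ) : ℤ) < (w.den : ℤ) := by
      rw [Int.toNat_of_nonneg hnn]; exact hlt
    exact_mod_cast this
  · rw [Int.toNat_of_nonneg hnn]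
    refine ⟨k * v + (k * u) / (w.den : ℤ) * w.num, ?_⟩
    have h := Int.emod_add_mul_ediv (k * u) (w.den : ℤ)
    have h2 : (k * u) % (w.den : ℤ) = k * u - (w.den : ℤ) * (k * u / (w.den : ℤ)) := by linarith
    rw [h2]
    linear_combination k * huv

theorem seg_hit (X : ℝ) (hX : 0 < X) (A a Q : ℕ) (hXA : X ≤ 4 * (A : ℝ) ^ 2)
    (haA : A ≤ a) (hQ : 1 ≤ Q) (hQA : Q ^ 3 ≤ A) (w : ℚ)
    (hw : |X / (a : ℝ) ^ 2 - w| ≤ 1 / (((Q : ℝ) + 1) * w.den)) (hwQ : w.den ≤ Q) :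
    ∃ j : ℕ, j < w.den ∧ ∃ b : ℕ, X ≤ ((a : ℝ) + j) * b ∧
      ((a : ℝ) + j) * b ≤ X + ((a : ℝ) + j) * (1 / w.den + 6 / Q) := by
  have hQr : (1 : ℝ) ≤ Q := by exact_mod_cast hQ
  have hA1 : 1 ≤ A := le_trans (Nat.one_le_pow _ _ hQ) hQA
  have hAr : (1 : ℝ) ≤ A := by exact_mod_cast hA1
  have haAr : (A : ℝ) ≤ a := by exact_mod_cast haA
  have ha0 : (0 : ℝ) < a := by linarith
  have hQAr : (Q : ℝ) ^ 3 ≤ A := by exact_mod_cast hQA
  have hq0 : (0 : ℝ) < w.den := by exact_mod_cast w.den_pos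
  have hqQ : (w.den : ℝ) ≤ Q := by exact_mod_cast hwQ
  obtain ⟨j, hj, b, hb⟩ := exists_rep w ⌈(X / a + 5 / Q) * w.den⌉
  have hjr : (j : ℝ) ≤ w.den := by exact_mod_cast hj.le
  have hj0 : (0 : ℝ) ≤ j := by positivity
  have haj : (0 : ℝ) < (a : ℝ) + j := by linarith
  have hwr : (w : ℝ) * w.den = w.num := by
    have := Rat.mul_den_eq_num w
    exact_mod_cast this
  have hbr : (b : ℝ) * w.den + j * w.num = (⌈(X / a + 5 / Q) * w.den⌉ : ℤ) := by
    exact_mod_cast hb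
  have hc1 : (X / a + 5 / Q) * w.den ≤ (⌈(X / a + 5 / Q) * w.den⌉ : ℤ) := Int.le_ceil _
  have hc2 : ((⌈(X / a + 5 / Q) * w.den⌉ : ℤ) : ℝ) < (X / a + 5 / Q) * w.den + 1 :=
    Int.ceil_lt_add_one _
  -- b + j w ∈ [X/a + 5/Q, X/a+5/Q+1/q)
  have hb1 : X / a + 5 / Q ≤ b + j * w := by
    rw [← hbr, ← hwr] at hc1
    have : (X / a + 5 / Q) * w.den ≤ (b + j * w) * w.den := by linarith
    exact le_of_mul_le_mul_right this hq0
  have hb2 : b + j * w ≤ X / a + 5 / Q + 1 / w.den := by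
    rw [← hbr, ← hwr] at hc2
    have : (b + j * w) * w.den ≤ (X / a + 5 / Q + 1 / w.den) * w.den := by
      have h1 : (1 / (w.den : ℝ)) * w.den = 1 := by field_simp
      nlinarith
    exact le_of_mul_le_mul_right this hq0
  -- X/(a+j) vs X/a - j X/a^2
  have hrho : X / (a + j) = X / a - j * (X / (a : ℝ) ^ 2) + X * j ^ 2 / (a ^ 2 * (a + j)) := by
    field_simp
    ring
  have hrho1 : 0 ≤ X * j ^ 2 / ((a : ℝ) ^ 2 * (a + j)) := by positivity
  have hrho2 : X * j ^ 2 / ((a : ℝ) ^ 2 * (a + j)) ≤ 4 / Q := by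
    rw [div_le_div_iff₀ (by positivity) (by positivity)]
    have hjQ : (j : ℝ) ≤ Q := by linarith
    have h1 : X * j ^ 2 * Q ≤ (4 * (A : ℝ) ^ 2) * Q ^ 2 * Q := by
      gcongr
    have h2 : (4 * (A : ℝ) ^ 2) * Q ^ 2 * Q = 4 * (A ^ 2 * Q ^ 3) := by ring
    have h3 : (A : ℝ) ^ 2 * Q ^ 3 ≤ a ^ 2 * (a + j) := by
      have h4 : (A : ℝ) ^ 2 ≤ a ^ 2 := by gcongr
      have h5 : (Q : ℝ) ^ 3 ≤ a + j := by linarith
      exact mul_le_mul h4 h5 (by positivity) (by positivity)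
    linarith
  have hlin : |(j : ℝ) * (X / (a : ℝ) ^ 2) - j * w| ≤ 1 / Q := by
    rw [← mul_sub, abs_mul, abs_of_nonneg hj0]
    calc (j : ℝ) * |X / (a : ℝ) ^ 2 - w| ≤ w.den * (1 / (((Q : ℝ) + 1) * w.den)) := by
          exact mul_le_mul hjr hw (abs_nonneg _) hq0.le
      _ = 1 / ((Q : ℝ) + 1) := by field_simp
      _ ≤ 1 / Q := by
          apply one_div_le_one_div_of_le (by linarith) (by linarith)
  rw [abs_le] at hlin
  have hlow : X / (a + j) ≤ b := by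
    have h5 : (5 : ℝ) / Q = 4 / Q + 1 / Q := by ring
    linarith [hlin.1, hlin.2]
  have hupp : (b : ℝ) ≤ X / (a + j) + (1 / w.den + 6 / Q) := by
    have h5 : (6 : ℝ) / Q = 5 / Q + 1 / Q := by ring
    linarith [hlin.1, hlin.2]
  have hbpos : (0 : ℝ) < b := lt_of_lt_of_le (by positivity) hlow
  have hbpos' : (0 : ℤ) < b := by exact_mod_cast hbpos
  refine ⟨j, hj, b.toNat, ?_, ?_⟩
  · have hbt : ((b.toNat : ℕ) : ℝ) = (b : ℝ) := by
      have : ((b.toNat : ℕ) : ℤ) = b := Int.toNat_of_nonneg hbpos'.le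
      exact_mod_cast congrArg (fun z : ℤ => (z : ℝ)) this
    rw [hbt]
    rw [div_le_iff₀ haj] at hlow
    linarith
  · have hbt : ((b.toNat : ℕ) : ℝ) = (b : ℝ) := by
      have : ((b.toNat : ℕ) : ℤ) = b := Int.toNat_of_nonneg hbpos'.le
      exact_mod_cast congrArg (fun z : ℤ => (z : ℝ)) this
    rw [hbt]
    calc ((a : ℝ) + j) * b ≤ ((a : ℝ) + j) * (X / (a + j) + (1 / w.den + 6 / Q)) := by
          gcongr
      _ = X + ((a : ℝ) + j) * (1 / w.den + 6 / Q) := by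
          field_simp

end MP14ee70
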