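import Mathlib
import Pool.Agent.Lib.MP_14ee70_nt.Seg

/-!
Few segments have a rational approximation with small denominator.
-/

namespace MP14ee70

open Finset

theorem card_le_of_diam (F : Finset ℕ) (D : ℕ) (h : ∀ x ∈ F, ∀ y ∈ F, x ≤ y → y ≤ x + D) :
    F.card ≤ D + 1 := by
  rcases F.eq_empty_or_nonempty with rfl | hne
  · simp
  · have hsub : F ⊆ Finset.Icc (F.min' hne) (F.min' hne + D) := by
      intro y hy
      rw [Finset.mem_Icc]
      exact ⟨F.min'_le y hy, h _ (F.min'_mem hne) y hy (F.min'_le y hy)⟩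
    calc F.card ≤ _ := Finset.card_le_card hsub
      _ = D + 1 := by rw [Nat.card_Icc]; omega

theorem diff_lower (X A a a' : ℝ) (hA : 0 < A) (hXA : A ^ 2 ≤ X) (haA : A ≤ a) (haa : a ≤ a')
    (ha' : a' ≤ 2 * A) : (a' - a) / (4 * A) ≤ X / a ^ 2 - X / a' ^ 2 := by
  have ha0 : 0 < a := by linarith
  have ha0' : 0 < a' := by linarith
  have h1 : X / a ^ 2 - X / a' ^ 2 = X * ((a' - a) * (a' + a)) / (a ^ 2 * a' ^ 2) := by
    field_simp
    ring
  rw [h1, div_le_div_iff₀ (by positivity) (by positivity)]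
  have hd : 0 ≤ a' - a := by linarith
  have h2 : a ^ 2 * a' ^ 2 ≤ 4 * A ^ 3 * (a' + a) := by
    have h3 : a * a' ≤ A * (a' + a) := by nlinarith
    have h4 : a * a' ≤ 4 * A ^ 2 := by nlinarith
    calc a ^ 2 * a' ^ 2 = (a * a') * (a * a') := by ring
      _ ≤ (4 * A ^ 2) * (A * (a' + a)) := by
          apply mul_le_mul h4 h3 (by positivity) (by positivity)
      _ = 4 * A ^ 3 * (a' + a) := by ring
  calc (a' - a) * (a ^ 2 * a' ^ 2) ≤ (a' - a) * (4 * A ^ 3 * (a' + a)) :=
        mul_le_mul_of_nonneg_left h2 hd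
    _ = A ^ 2 * ((a' - a) * (a' + a)) * (4 * A) := by ring
    _ ≤ X * ((a' - a) * (a' + a)) * (4 * A) := by gcongr

theorem bad_count (X : ℝ) (A Q : ℕ) (hQ : 1 ≤ Q) (hA1 : Q ^ 3 ≤ A) (hA2 : A < (Q + 1) ^ 3)
    (hX1 : (A : ℝ) ^ 2 ≤ X) (hX2 : X ≤ 4 * (A : ℝ) ^ 2) (w : ℕ → ℚ)
    (hw : ∀ l, l < Q ^ 2 → |X / ((A + l * Q : ℕ) : ℝ) ^ 2 - w l| ≤
      1 / (((Q : ℝ) + 1) * (w l).den)) :
    2 * ((Finset.range (Q ^ 2)).filter (fun l => 1000 * (w l).den < Q)).card ≤ Q ^ 2 := by
  classical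
  have hQr : (1 : ℝ) ≤ Q := by exact_mod_cast hQ
  have hAnat : 1 ≤ A := le_trans (Nat.one_le_pow _ _ hQ) hA1
  have hAr : (1 : ℝ) ≤ A := by exact_mod_cast hAnat
  have hX0 : 0 < X := by nlinarith
  set B := (Finset.range (Q ^ 2)).filter (fun l => 1000 * (w l).den < Q) with hB
  have hle2A : ∀ l, l < Q ^ 2 → ((A + l * Q : ℕ) : ℝ) ≤ 2 * A := by
    intro l hl
    have : A + l * Q ≤ 2 * A := by
      have h1 : l * Q ≤ Q ^ 2 * Q := Nat.mul_le_mul_right _ hl.le
      have h2 : Q ^ 2 * Q = Q ^ 3 := by ring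
      omega
    exact_mod_cast this
  have hgeA : ∀ l, (A : ℝ) ≤ ((A + l * Q : ℕ) : ℝ) := by
    intro l
    exact_mod_cast Nat.le_add_right _ _
  -- numerators
  have hnum : ∀ l, l < Q ^ 2 → 0 ≤ (w l).num ∧ (w l).num < 4 * ((w l).den : ℤ) + 1 := by
    intro l hl
    have h := hw l hl
    set q := (w l).den with hq
    have hq0 : (0 : ℝ) < q := by exact_mod_cast (w l).den_pos
    have ha1 := hgeA l
    have ha2 := hle2A l hl
    set a : ℝ := ((A + l * Q : ℕ) : ℝ) with ha
    have ha0 : 0 < a := by linarith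
    have hxi1 : 0 < X / a ^ 2 := by positivity
    have hxi2 : X / a ^ 2 ≤ 4 := by
      rw [div_le_iff₀ (by positivity)]
      nlinarith
    have hwr : (w l : ℝ) * q = (w l).num := by
      have := Rat.mul_den_eq_num (w l)
      exact_mod_cast this
    rw [abs_le] at h
    have h1 : 1 / (((Q : ℝ) + 1) * q) * q < 1 := by
      have : 1 / (((Q : ℝ) + 1) * q) * q = 1 / ((Q : ℝ) + 1) := by field_simp
      rw [this, div_lt_one (by linarith)]
      linarith
    constructor
    · have h2 : (-1 : ℝ) < (w l).num := by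
        rw [← hwr]
        have h3 : - (1 / (((Q : ℝ) + 1) * q)) ≤ w l := by linarith [h.2]
        have h4 := mul_le_mul_of_nonneg_right h3 hq0.le
        linarith
      have h5 : (-1 : ℤ) < (w l).num := by exact_mod_cast h2
      omega
    · have h2 : ((w l).num : ℝ) < 4 * q + 1 := by
        rw [← hwr]
        have h3 : (w l : ℝ) ≤ 4 + (1 / (((Q : ℝ) + 1) * q)) := by linarith [h.1]
        have h4 := mul_le_mul_of_nonneg_right h3 hq0.le
        linarith
      exact_mod_cast h2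
  -- close l's
  have hclose : ∀ l, l < Q ^ 2 → ∀ l', l' < Q ^ 2 → l ≤ l' → w l = w l' →
      (l' - l) * (Q ^ 2 * (w l).den) ≤ 8 * A := by
    intro l hl l' hl' hll heq
    have h := hw l hl
    have h' := hw l' hl'
    rw [← heq] at h'
    set q := (w l).den with hq
    have hq0 : (0 : ℝ) < q := by exact_mod_cast (w l).den_pos
    have hd := diff_lower X A ((A + l * Q : ℕ) : ℝ) ((A + l' * Q : ℕ) : ℝ) (by linarith) hX1
      (hgeA l) (by
        have : A + l * Q ≤ A + l' * Q := by gcongr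
        exact_mod_cast this) (hle2A l' hl')
    rw [abs_le] at h h'
    have h1 : (((A + l' * Q : ℕ) : ℝ) - ((A + l * Q : ℕ) : ℝ)) / (4 * A) ≤
        2 / (((Q : ℝ) + 1) * q) := by
      have : 2 / (((Q : ℝ) + 1) * q) = 1 / (((Q : ℝ) + 1) * q) + 1 / (((Q : ℝ) + 1) * q) := by
        ring
      linarith [h.2, h'.1]
    rw [div_le_div_iff₀ (by linarith) (by positivity)] at h1
    have h2 : (((A + l' * Q : ℕ) : ℝ) - ((A + l * Q : ℕ) : ℝ)) = ((l' - l : ℕ) : ℝ) * Q := by
      push_cast [Nat.cast_sub hll]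
      ring
    rw [h2] at h1
    have hnn : (0 : ℝ) ≤ ((l' - l : ℕ) : ℝ) * Q := by positivity
    have h3 : ((l' - l : ℕ) : ℝ) * ((Q : ℝ) ^ 2 * q) ≤ 8 * A := by
      have h4 : ((l' - l : ℕ) : ℝ) * ((Q : ℝ) ^ 2 * q) ≤
          ((l' - l : ℕ) : ℝ) * Q * (((Q : ℝ) + 1) * q) := by
        have : ((l' - l : ℕ) : ℝ) * Q * (((Q : ℝ) + 1) * q) =
            ((l' - l : ℕ) : ℝ) * ((Q : ℝ) ^ 2 * q) + ((l' - l : ℕ) : ℝ) * Q * q := by ring
        rw [this]
        have : (0 : ℝ) ≤ ((l' - l : ℕ) : ℝ) * Q * q := by positivity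
        linarith
      linarith
    exact_mod_cast h3
  -- per-denominator count
  have hQ2 : 0 < Q ^ 2 := by positivity
  have h8A : 8 * A / Q ^ 2 ≤ 64 * Q := by
    have h1 : (Q + 1) ^ 3 ≤ 8 * Q ^ 3 := by
      have : (Q + 1) ^ 3 ≤ (2 * Q) ^ 3 := Nat.pow_le_pow_left (by omega) 3
      calc _ ≤ (2 * Q) ^ 3 := this
        _ = _ := by ring
    calc 8 * A / Q ^ 2 ≤ (64 * Q * Q ^ 2) / Q ^ 2 := by
          apply Nat.div_le_div_right
          have : 64 * Q * Q ^ 2 = 8 * (8 * Q ^ 3) := by ring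
          rw [this]
          omega
      _ = 64 * Q := Nat.mul_div_cancel _ hQ2
  have hden : ∀ q ∈ Finset.Icc 1 (Q / 1000),
      (B.filter (fun l => (w l).den = q)).card ≤ 325 * Q := by
    intro q hq
    rw [Finset.mem_Icc] at hq
    have hqQ : q ≤ Q := le_trans hq.2 (Nat.div_le_self _ _)
    have hstep : (B.filter (fun l => (w l).den = q)).card ≤
        (8 * A / (Q ^ 2 * q) + 1) * (Finset.range (4 * q + 1)).card := by
      apply Finset.card_le_mul_card_image_of_maps_to (f := fun l => (w l).num.toNat)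
      · intro l hl
        rw [Finset.mem_filter, hB, Finset.mem_filter, Finset.mem_range] at hl
        obtain ⟨h0, h1⟩ := hnum l hl.1.1
        rw [hl.2] at h1
        rw [Finset.mem_range]
        omega
      · intro p _
        apply card_le_of_diam
        intro l hl l' hl' hll
        simp only [Finset.mem_filter, hB, Finset.mem_range] at hl hl'
        have heq : w l = w l' := by
          apply Rat.ext
          · have h0 := (hnum l hl.1.1.1).1
            have h0' := (hnum l' hl'.1.1.1).1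
            have := hl.2.trans hl'.2.symm
            omega
          · rw [hl.1.2, hl'.1.2]
        have := hclose l hl.1.1.1 l' hl'.1.1.1 hll heq
        rw [hl.1.2] at this
        have h3 : l' - l ≤ 8 * A / (Q ^ 2 * q) := by
          rw [Nat.le_div_iff_mul_le (Nat.mul_pos hQ2 hq.1)]
          exact this
        omega
    rw [Finset.card_range] at hstep
    have h5 : q * (8 * A / (Q ^ 2 * q)) ≤ 8 * A / Q ^ 2 := by
      rw [← Nat.div_div_eq_div_mul]
      exact Nat.mul_div_le _ _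
    calc _ ≤ (8 * A / (Q ^ 2 * q) + 1) * (4 * q + 1) := hstep
      _ ≤ (8 * A / (Q ^ 2 * q) + 1) * (5 * q) := by
          apply Nat.mul_le_mul_left; omega
      _ = 5 * (q * (8 * A / (Q ^ 2 * q))) + 5 * q := by ring
      _ ≤ 5 * (8 * A / Q ^ 2) + 5 * q := by omega
      _ ≤ 325 * Q := by omega
  have htot : B.card ≤ (325 * Q) * (Finset.Icc 1 (Q / 1000)).card := by
    apply Finset.card_le_mul_card_image_of_maps_to (f := fun l => (w l).den) _ _ hden
    intro l hl
    rw [hB, Finset.mem_filter] at hl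
    rw [Finset.mem_Icc]
    refine ⟨(w l).den_pos, ?_⟩
    rw [Nat.le_div_iff_mul_le (by norm_num)]
    omega
  rw [Nat.card_Icc] at htot
  have h6 : 1000 * (Q / 1000) ≤ Q := Nat.mul_div_le _ _
  calc 2 * B.card ≤ 2 * ((325 * Q) * (Q / 1000 + 1 - 1)) := by omega
    _ = 650 * Q * (Q / 1000) := by rw [Nat.add_sub_cancel]; ring
    _ ≤ Q * (1000 * (Q / 1000)) := by nlinarith [Nat.zero_le (Q * (Q / 1000))]
    _ ≤ Q * Q := Nat.mul_le_mul_left _ h6
    _ = Q ^ 2 := by ring

end MP14ee70
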