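import Mathlib
import Pool.Agent.Lib.MP_14ee70_nt.Bad

/-!
Many `a` in a dyadic range have a multiple in a short interval.
-/

namespace MP14ee70

open Finset

theorem hits (X : ℝ) (A Q : ℕ) (hQ : 1 ≤ Q) (hA1 : Q ^ 3 ≤ A) (hA2 : A < (Q + 1) ^ 3)
    (hX1 : (A : ℝ) ^ 2 ≤ X) (hX2 : X ≤ 4 * (A : ℝ) ^ 2) :
    ∃ H : Finset ℕ, H ⊆ Finset.Ico A (2 * A) ∧ Q ^ 2 ≤ 2 * H.card ∧
      ∀ a ∈ H, ∃ b : ℕ, X ≤ (a : ℝ) * b ∧ (a : ℝ) * b ≤ X + 16096 * (Q : ℝ) ^ 2 := by
  classical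
  have hQr : (1 : ℝ) ≤ Q := by exact_mod_cast hQ
  have hAnat : 1 ≤ A := le_trans (Nat.one_le_pow _ _ hQ) hA1
  have hAr : (1 : ℝ) ≤ A := by exact_mod_cast hAnat
  have hX0 : 0 < X := by nlinarith
  have hdir : ∀ l : ℕ, ∃ q : ℚ, |X / ((A + l * Q : ℕ) : ℝ) ^ 2 - q| ≤
      1 / (((Q : ℝ) + 1) * q.den) ∧ q.den ≤ Q :=
    fun l => Real.exists_rat_abs_sub_le_and_den_le _ (by omega)
  choose w hw using hdir
  have hbad := bad_count X A Q hQ hA1 hA2 hX1 hX2 w (fun l _ => (hw l).1)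
  have hseg : ∀ l : ℕ, ∃ j : ℕ, j < (w l).den ∧ ∃ b : ℕ, X ≤ (((A + l * Q : ℕ) : ℝ) + j) * b ∧
      (((A + l * Q : ℕ) : ℝ) + j) * b ≤ X + (((A + l * Q : ℕ) : ℝ) + j) *
        (1 / (w l).den + 6 / Q) :=
    fun l => seg_hit X hX0 A (A + l * Q) Q hX2 (Nat.le_add_right _ _) hQ hA1 (w l) (hw l).1
      (hw l).2
  choose j hj hb using hseg
  set G := (Finset.range (Q ^ 2)).filter (fun l => ¬ (1000 * (w l).den < Q)) with hG
  have hGcard : Q ^ 2 ≤ 2 * G.card := by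
    have h1 : ((Finset.range (Q ^ 2)).filter (fun l => 1000 * (w l).den < Q)).card + G.card
        = (Finset.range (Q ^ 2)).card := by
      rw [hG]
      convert Finset.card_filter_add_card_filter_not (s := Finset.range (Q ^ 2))
        (fun l => 1000 * (w l).den < Q)
    rw [Finset.card_range] at h1
    omega
  have hjQ : ∀ l, j l < Q := fun l => lt_of_lt_of_le (hj l) (hw l).2
  refine ⟨G.image (fun l => A + l * Q + j l), ?_, ?_, ?_⟩
  · intro a ha
    rw [Finset.mem_image] at ha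
    obtain ⟨l, hl, rfl⟩ := ha
    rw [hG, Finset.mem_filter, Finset.mem_range] at hl
    rw [Finset.mem_Ico]
    refine ⟨by omega, ?_⟩
    have h1 : (l + 1) * Q ≤ Q ^ 2 * Q := Nat.mul_le_mul_right _ hl.1
    have h2 : Q ^ 2 * Q = Q ^ 3 := by ring
    have h3 := hjQ l
    have h4 : (l + 1) * Q = l * Q + Q := by ring
    omega
  · rw [Finset.card_image_of_injOn]
    · exact hGcard
    · intro l _ l' _ h
      simp only at h
      have h1 := hjQ l
      have h2 := hjQ l'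
      have h3 : (l * Q + j l) / Q = (l' * Q + j l') / Q := by
        congr 1; omega
      rw [Nat.add_comm, Nat.add_mul_div_right _ _ (by omega), Nat.div_eq_of_lt h1,
        Nat.add_comm (l' * Q), Nat.add_mul_div_right _ _ (by omega), Nat.div_eq_of_lt h2] at h3
      omega
  · intro a ha
    rw [Finset.mem_image] at ha
    obtain ⟨l, hl, rfl⟩ := ha
    obtain ⟨b, hb1, hb2⟩ := hb l
    rw [hG, Finset.mem_filter, Finset.mem_range] at hl
    refine ⟨b, ?_, ?_⟩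
    · push_cast at hb1 ⊢
      exact hb1
    · have hlt : A + l * Q + j l < 2 * A := by
        have h1 : (l + 1) * Q ≤ Q ^ 2 * Q := Nat.mul_le_mul_right _ hl.1
        have h2 : Q ^ 2 * Q = Q ^ 3 := by ring
        have h3 := hjQ l
        have h4 : (l + 1) * Q = l * Q + Q := by ring
        omega
      have hltr : ((A + l * Q : ℕ) : ℝ) + j l ≤ 2 * A := by exact_mod_cast hlt.le
      have hden : (Q : ℝ) ≤ 1000 * (w l).den := by
        have := hl.2
        push Not at this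
        exact_mod_cast this
      have hden0 : (0 : ℝ) < (w l).den := by exact_mod_cast (w l).den_pos
      have h1 : 1 / ((w l).den : ℝ) + 6 / Q ≤ 1006 / Q := by
        have : 1 / ((w l).den : ℝ) ≤ 1000 / Q := by
          rw [div_le_div_iff₀ hden0 (by linarith)]
          linarith
        have h2 : (1006 : ℝ) / Q = 1000 / Q + 6 / Q := by ring
        linarith
      have hA8 : (A : ℝ) ≤ 8 * (Q : ℝ) ^ 3 := by
        have h1 : (Q + 1) ^ 3 ≤ 8 * Q ^ 3 := by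
          have : (Q + 1) ^ 3 ≤ (2 * Q) ^ 3 := Nat.pow_le_pow_left (by omega) 3
          calc _ ≤ (2 * Q) ^ 3 := this
            _ = _ := by ring
        have : A ≤ 8 * Q ^ 3 := by omega
        exact_mod_cast this
      have h3 : (((A + l * Q : ℕ) : ℝ) + j l) * (1 / (w l).den + 6 / Q) ≤
          16096 * (Q : ℝ) ^ 2 := by
        calc _ ≤ (2 * (A : ℝ)) * (1006 / Q) := by
              apply mul_le_mul hltr h1 (by positivity) (by positivity)
          _ ≤ (2 * (8 * (Q : ℝ) ^ 3)) * (1006 / Q) := by gcongr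
          _ = 16096 * (Q : ℝ) ^ 2 := by
              field_simp
              ring
      push_cast at hb2 h3 ⊢
      linarith

theorem exists_cube_root (A : ℕ) : ∃ Q : ℕ, Q ^ 3 ≤ A ∧ A < (Q + 1) ^ 3 := by
  classical
  have hex : ∃ k : ℕ, A < (k + 1) ^ 3 := ⟨A, by nlinarith [sq_nonneg A, Nat.zero_le (A ^ 3)]⟩
  refine ⟨Nat.find hex, ?_, Nat.find_spec hex⟩
  rcases Nat.eq_zero_or_pos (Nat.find hex) with h0 | hpos
  · rw [h0]; simp
  · have := Nat.find_min hex (m := Nat.find hex - 1) (by omega)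
    push Not at this
    have h1 : Nat.find hex - 1 + 1 = Nat.find hex := by omega
    rw [h1] at this
    exact this

/-- The count for one multiplier `c`. -/
theorem per_c (n c : ℕ) (hc : 1 ≤ c) (hcn : c ≤ n) :
    ∃ A Q : ℕ, ∃ H : Finset ℕ, 1 ≤ Q ∧ Q ^ 3 ≤ A ∧ A < (Q + 1) ^ 3 ∧ A ^ 2 * c ≤ n ∧
      n < (A + 1) ^ 2 * c ∧ H ⊆ Finset.Ico A (2 * A) ∧ Q ^ 2 ≤ 2 * H.card ∧
      ∀ a ∈ H, ∃ b : ℕ, n ≤ c * a * b ∧ c * a * b ≤ n + 16096 * Q ^ 2 * c := by
  have hsq1 : (Nat.sqrt (n / c)) ^ 2 * c ≤ n := by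
    have := Nat.sqrt_le' (n / c)
    calc _ ≤ (n / c) * c := Nat.mul_le_mul_right _ this
      _ ≤ n := Nat.div_mul_le_self _ _
  have hsq2 : n < (Nat.sqrt (n / c) + 1) ^ 2 * c := by
    have := Nat.lt_succ_sqrt' (n / c)
    rw [Nat.div_lt_iff_lt_mul (by omega)] at this
    exact this
  set A := Nat.sqrt (n / c) with hA
  have hA1 : 1 ≤ A := by
    rw [hA, Nat.one_le_iff_ne_zero, Ne, Nat.sqrt_eq_zero]
    have : 0 < n / c := Nat.div_pos hcn (by omega)
    omega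
  obtain ⟨Q, hQ1, hQ2⟩ := exists_cube_root A
  have hQpos : 1 ≤ Q := by
    by_contra h
    have : Q = 0 := by omega
    subst this
    simp at hQ2
    omega
  have hcr : (0 : ℝ) < c := by exact_mod_cast hc
  have hX1 : (A : ℝ) ^ 2 ≤ (n : ℝ) / c := by
    rw [le_div_iff₀ hcr]
    exact_mod_cast hsq1
  have hX2 : (n : ℝ) / c ≤ 4 * (A : ℝ) ^ 2 := by
    rw [div_le_iff₀ hcr]
    have : n ≤ 4 * A ^ 2 * c := by
      have h1 : (A + 1) ^ 2 ≤ 4 * A ^ 2 := by nlinarith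
      have h2 : (A + 1) ^ 2 * c ≤ 4 * A ^ 2 * c := Nat.mul_le_mul_right _ h1
      omega
    exact_mod_cast this
  obtain ⟨H, hH1, hH2, hH3⟩ := hits ((n : ℝ) / c) A Q hQpos hQ1 hQ2 hX1 hX2
  refine ⟨A, Q, H, hQpos, hQ1, hQ2, hsq1, hsq2, hH1, hH2, ?_⟩
  intro a ha
  obtain ⟨b, hb1, hb2⟩ := hH3 a ha
  refine ⟨b, ?_, ?_⟩
  · rw [div_le_iff₀ hcr] at hb1
    have : (n : ℝ) ≤ c * a * b := by linarith
    exact_mod_cast this
  · have h1 := mul_le_mul_of_nonneg_right hb2 hcr.le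
    have h2 : ((n : ℝ) / c + 16096 * (Q : ℝ) ^ 2) * c = n + 16096 * (Q : ℝ) ^ 2 * c := by
      field_simp
    rw [h2] at h1
    have : (c : ℝ) * a * b ≤ n + 16096 * (Q : ℝ) ^ 2 * c := by linarith
    exact_mod_cast this

end MP14ee70
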