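import Mathlib

/-!
Linear algebra over the field with two elements, by pigeonhole: more than `k` positive
integers whose prime factors are all at most `k`, none of them a square, have a subset with at
least two elements whose product is a square.
-/

namespace MP14ee70

open Finset

theorem isSquare_of_mul_sq {s c : ℕ} (hc : c ≠ 0) (h : IsSquare (s * c ^ 2)) : IsSquare s := by
  obtain ⟨d, hd⟩ := h
  have hdvd : c ^ 2 ∣ d ^ 2 := ⟨s, by rw [pow_two d, ← hd]; ring⟩
  have hcd : c ∣ d := (Nat.pow_dvd_pow_iff (by norm_num)).mp hdvd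
  obtain ⟨e, rfl⟩ := hcd
  refine ⟨e, ?_⟩
  have hc2 : 0 < c ^ 2 := by positivity
  apply Nat.eq_of_mul_eq_mul_right hc2
  rw [hd]; ring

theorem prod_mem_smooth (k : ℕ) (T : Finset ℕ) (h : ∀ a ∈ T, a ∈ Nat.smoothNumbers k) :
    (∏ a ∈ T, a) ∈ Nat.smoothNumbers k := by
  classical
  induction T using Finset.induction_on with
  | empty => simp [Nat.mem_smoothNumbers]
  | insert a T ha ih =>
    rw [Finset.prod_insert ha]
    exact Nat.mul_mem_smoothNumbers (h a (Finset.mem_insert_self _ _))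
      (ih (fun b hb => h b (Finset.mem_insert_of_mem hb)))

theorem exists_square_subset (N : Finset ℕ) (k : ℕ)
    (hsm : ∀ a ∈ N, a ∈ Nat.smoothNumbers (k + 1)) (hcard : k < N.card)
    (hns : ∀ a ∈ N, ¬ IsSquare a) :
    ∃ S : Finset ℕ, S ⊆ N ∧ 2 ≤ S.card ∧ IsSquare (∏ a ∈ S, a) := by
  classical
  have hex : ∀ T : Finset ℕ, T ⊆ N → ∃ s ∈ (Nat.primesBelow (k + 1)).powerset, ∃ m,
      (∏ a ∈ T, a) = m ^ 2 * (s.prod id) := by
    intro T hT
    exact Nat.eq_prod_primes_mul_sq_of_mem_smoothNumbers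
      (prod_mem_smooth (k + 1) T (fun a ha => hsm a (hT ha)))
  let f : Finset ℕ → Finset ℕ := fun T => if hT : T ⊆ N then (hex T hT).choose else ∅
  have hf : ∀ T (hT : T ⊆ N), f T ∈ (Nat.primesBelow (k + 1)).powerset ∧ ∃ m,
      (∏ a ∈ T, a) = m ^ 2 * ((f T).prod id) := by
    intro T hT
    have h := (hex T hT).choose_spec
    have : f T = (hex T hT).choose := by simp only [f, dif_pos hT]
    rw [this]
    exact h
  have hpb : (Nat.primesBelow (k + 1)).card ≤ k := by
    have hsub : Nat.primesBelow (k + 1) ⊆ Finset.Icc 1 k := by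
      intro p hp
      rw [Nat.mem_primesBelow] at hp
      rw [Finset.mem_Icc]
      exact ⟨hp.2.one_lt.le, by omega⟩
    calc _ ≤ (Finset.Icc 1 k).card := Finset.card_le_card hsub
      _ = k := by simp
  have hlt : ((Nat.primesBelow (k + 1)).powerset).card < (N.powerset).card := by
    rw [Finset.card_powerset, Finset.card_powerset]
    exact Nat.pow_lt_pow_right (by norm_num) (lt_of_le_of_lt hpb hcard)
  obtain ⟨T1, hT1, T2, hT2, hne, hfe⟩ := Finset.exists_ne_map_eq_of_card_lt_of_maps_to hlt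
    (f := f) (fun T hT => (hf T (Finset.mem_powerset.mp hT)).1)
  rw [Finset.mem_powerset] at hT1 hT2
  obtain ⟨-, m1, hm1⟩ := hf T1 hT1
  obtain ⟨-, m2, hm2⟩ := hf T2 hT2
  set S := (T1 \ T2) ∪ (T2 \ T1) with hS
  have hSN : S ⊆ N := by
    intro x hx
    rw [hS, Finset.mem_union, Finset.mem_sdiff, Finset.mem_sdiff] at hx
    rcases hx with hx | hx
    · exact hT1 hx.1
    · exact hT2 hx.1
  have hpos : ∀ a ∈ N, a ≠ 0 := fun a ha => (Nat.mem_smoothNumbers.mp (hsm a ha)).1
  have hSne : S.Nonempty := by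
    rw [Finset.nonempty_iff_ne_empty]
    intro h
    apply hne
    rw [hS, Finset.union_eq_empty, Finset.sdiff_eq_empty_iff_subset,
      Finset.sdiff_eq_empty_iff_subset] at h
    exact Finset.Subset.antisymm h.1 h.2
  have hdisj : Disjoint (T1 \ T2) (T2 \ T1) := by
    rw [Finset.disjoint_left]
    intro x hx hx'
    rw [Finset.mem_sdiff] at hx hx'
    exact hx.2 hx'.1
  have hprod : (∏ a ∈ S, a) * (∏ a ∈ T1 ∩ T2, a) ^ 2 = (∏ a ∈ T1, a) * (∏ a ∈ T2, a) := by
    rw [hS, Finset.prod_union hdisj]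
    have h1 : (∏ a ∈ T1 \ T2, a) * (∏ a ∈ T1 ∩ T2, a) = ∏ a ∈ T1, a := by
      rw [mul_comm, ← Finset.sdiff_inter_self_left T1 T2, mul_comm]
      exact Finset.prod_sdiff Finset.inter_subset_left
    have h2 : (∏ a ∈ T2 \ T1, a) * (∏ a ∈ T1 ∩ T2, a) = ∏ a ∈ T2, a := by
      rw [Finset.inter_comm T1 T2, ← Finset.sdiff_inter_self_left T2 T1]
      exact Finset.prod_sdiff Finset.inter_subset_left
    rw [← h1, ← h2]; ring
  have hIne : (∏ a ∈ T1 ∩ T2, a) ≠ 0 := by
    rw [Finset.prod_ne_zero_iff]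
    intro a ha
    exact hpos a (hT1 (Finset.mem_inter.mp ha).1)
  have hsq : IsSquare (∏ a ∈ S, a) := by
    apply isSquare_of_mul_sq hIne
    rw [hprod, hm1, hm2, hfe]
    exact ⟨m1 * m2 * ((f T2).prod id), by ring⟩
  refine ⟨S, hSN, ?_, hsq⟩
  by_contra hlt2
  push Not at hlt2
  have hc1 : S.card = 1 := by
    have := hSne.card_pos
    omega
  obtain ⟨a, ha⟩ := Finset.card_eq_one.mp hc1
  rw [ha, Finset.prod_singleton] at hsq
  exact hns a (hSN (by rw [ha]; exact Finset.mem_singleton_self a)) hsq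

end MP14ee70
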