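import Mathlib
import Pool.Agent.Lib.MP_14ee70_nt.Hits
import Pool.Agent.Lib.MP_14ee70_nt.Lin

/-!
The combinatorial core: many smooth integers in a short interval give a square product.
-/

namespace MP14ee70

open Finset

theorem core (n : ℕ) (u v D : ℝ) (hu : 1 ≤ u) (hv : 100 ≤ v) (hn : (n : ℝ) = u * v ^ 6)
    (huv : u ≤ v ^ 3)
    (hD : ∀ m : ℕ, n ≤ m → m ≤ 2 * n → ((m.divisors.card : ℝ)) ^ 2 ≤ D)
    (hmain : 180 * D * v < u) :
    ∃ S : Finset ℕ, S ⊆ Finset.Icc n (n + ⌊32192 * u * v ^ 2⌋₊) ∧ 2 ≤ S.card ∧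
      IsSquare (∏ a ∈ S, a) := by
  classical
  have hu0 : 0 < u := by linarith
  have hv0 : 0 < v := by linarith
  have hv4 : (100000000 : ℝ) ≤ v ^ 4 := by
    calc (100000000 : ℝ) = 100 ^ 4 := by norm_num
      _ ≤ v ^ 4 := pow_le_pow_left₀ (by norm_num) hv 4
  have hv3 : (1000000 : ℝ) ≤ v ^ 3 := by
    calc (1000000 : ℝ) = 100 ^ 3 := by norm_num
      _ ≤ v ^ 3 := pow_le_pow_left₀ (by norm_num) hv 3
  have hv2 : (10000 : ℝ) ≤ v ^ 2 := by
    calc (10000 : ℝ) = 100 ^ 2 := by norm_num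
      _ ≤ v ^ 2 := pow_le_pow_left₀ (by norm_num) hv 2
  have hv6 : v ^ 6 = v ^ 4 * v ^ 2 := by ring
  have hnpos : 0 < n := by
    have : (0 : ℝ) < n := by rw [hn]; positivity
    exact_mod_cast this
  set C := ⌊u⌋₊ with hC
  have hC1 : (C : ℝ) ≤ u := Nat.floor_le hu0.le
  have hC2 : u < C + 1 := Nat.lt_floor_add_one u
  have hCpos : 1 ≤ C := by
    rw [hC, Nat.one_le_floor_iff]
    exact hu
  have hCr : (1 : ℝ) ≤ C := by exact_mod_cast hCpos
  have hcrange : ∀ c ∈ Finset.Ioc C (2 * C), u < (c : ℝ) ∧ (c : ℝ) ≤ 2 * u ∧ 1 ≤ c ∧ c ≤ n := by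
    intro c hc
    rw [Finset.mem_Ioc] at hc
    have h1 : ((C + 1 : ℕ) : ℝ) ≤ c := by exact_mod_cast hc.1
    have h2 : (c : ℝ) ≤ ((2 * C : ℕ) : ℝ) := by exact_mod_cast hc.2
    push_cast at h1 h2
    refine ⟨by linarith, by linarith, by omega, ?_⟩
    have h3 : (c : ℝ) ≤ n := by
      rw [hn]
      have h26 : (2 : ℝ) ≤ v ^ 6 := by
        rw [hv6]
        nlinarith
      have : 2 * u ≤ u * v ^ 6 := by
        calc 2 * u = u * 2 := by ring
          _ ≤ u * v ^ 6 := by gcongr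
      linarith
    exact_mod_cast h3
  have hex : ∀ c : ℕ, ∃ A Q : ℕ, ∃ H : Finset ℕ, c ∈ Finset.Ioc C (2 * C) →
      (1 ≤ Q ∧ Q ^ 3 ≤ A ∧ A < (Q + 1) ^ 3 ∧ A ^ 2 * c ≤ n ∧
      n < (A + 1) ^ 2 * c ∧ H ⊆ Finset.Ico A (2 * A) ∧ Q ^ 2 ≤ 2 * H.card ∧
      ∀ a ∈ H, ∃ b : ℕ, n ≤ c * a * b ∧ c * a * b ≤ n + 16096 * Q ^ 2 * c) := by
    intro c
    by_cases hc : c ∈ Finset.Ioc C (2 * C)
    · obtain ⟨-, -, h1, h2⟩ := hcrange c hc
      obtain ⟨A, Q, H, h⟩ := per_c n c h1 h2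
      exact ⟨A, Q, H, fun _ => h⟩
    · exact ⟨0, 0, ∅, fun h => absurd h hc⟩
  choose A Q H hAQH using hex
  have hexb : ∀ c a : ℕ, ∃ b : ℕ, c ∈ Finset.Ioc C (2 * C) → a ∈ H c →
      (n ≤ c * a * b ∧ c * a * b ≤ n + 16096 * (Q c) ^ 2 * c) := by
    intro c a
    by_cases hc : c ∈ Finset.Ioc C (2 * C)
    · by_cases ha : a ∈ H c
      · obtain ⟨-, -, -, -, -, -, -, h⟩ := hAQH c hc
        obtain ⟨b, hb⟩ := h a ha
        exact ⟨b, fun _ _ => hb⟩
      · exact ⟨0, fun _ h => absurd h ha⟩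
    · exact ⟨0, fun h => absurd h hc⟩
  choose b hb using hexb
  -- estimates for A and Q
  have hAQ : ∀ c ∈ Finset.Ioc C (2 * C), (A c : ℝ) ≤ v ^ 3 ∧ v ^ 3 / 3 ≤ (A c : ℝ) ∧
      (Q c : ℝ) ≤ v ∧ v / 3 ≤ (Q c : ℝ) := by
    intro c hc
    obtain ⟨hc1, hc2, hc3, hc4⟩ := hcrange c hc
    obtain ⟨h1, h2, h3, h4, h5, -, -, -⟩ := hAQH c hc
    have h1r : (1 : ℝ) ≤ Q c := by exact_mod_cast h1
    have h2r : (Q c : ℝ) ^ 3 ≤ A c := by exact_mod_cast h2
    have h3r : (A c : ℝ) < ((Q c : ℝ) + 1) ^ 3 := by exact_mod_cast h3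
    have h4r : (A c : ℝ) ^ 2 * c ≤ n := by exact_mod_cast h4
    have h5r : (n : ℝ) < ((A c : ℝ) + 1) ^ 2 * c := by exact_mod_cast h5
    have hA0 : (0 : ℝ) ≤ A c := by positivity
    have hA1 : (1 : ℝ) ≤ A c := by
      have : (1 : ℝ) ≤ (Q c : ℝ) ^ 3 := one_le_pow₀ h1r
      linarith
    have e1 : (A c : ℝ) ^ 2 ≤ v ^ 6 := by
      have h6 : (A c : ℝ) ^ 2 * u ≤ (A c : ℝ) ^ 2 * c := by gcongr
      have h7 : (A c : ℝ) ^ 2 * u ≤ v ^ 6 * u := by rw [hn] at h4r; linarith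
      exact le_of_mul_le_mul_right h7 hu0
    have e2 : (A c : ℝ) ≤ v ^ 3 := by
      have h8 : (A c : ℝ) ^ 2 ≤ (v ^ 3) ^ 2 := by
        calc _ ≤ v ^ 6 := e1
          _ = _ := by ring
      exact (pow_le_pow_iff_left₀ hA0 (by positivity) (by norm_num)).mp h8
    have e3 : v ^ 3 / 3 ≤ (A c : ℝ) := by
      by_contra hlt
      push Not at hlt
      have h9 : u * v ^ 6 < (2 * (A c : ℝ)) ^ 2 * (2 * u) := by
        rw [← hn]
        calc (n : ℝ) < ((A c : ℝ) + 1) ^ 2 * c := h5r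
          _ ≤ (2 * (A c : ℝ)) ^ 2 * (2 * u) := by
            apply mul_le_mul _ hc2 (by positivity) (by positivity)
            apply pow_le_pow_left₀ (by positivity)
            linarith
      have h10 : (A c : ℝ) ^ 2 ≤ (v ^ 3 / 3) ^ 2 := pow_le_pow_left₀ hA0 hlt.le 2
      have h11 : (2 * (A c : ℝ)) ^ 2 * (2 * u) ≤ u * v ^ 6 := by
        calc (2 * (A c : ℝ)) ^ 2 * (2 * u) = 8 * u * (A c : ℝ) ^ 2 := by ring
          _ ≤ 8 * u * (v ^ 3 / 3) ^ 2 := by gcongr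
          _ = (8 / 9) * (u * v ^ 6) := by ring
          _ ≤ 1 * (u * v ^ 6) := by
            apply mul_le_mul_of_nonneg_right (by norm_num) (by positivity)
          _ = _ := by ring
      linarith
    have hQ0 : (0 : ℝ) ≤ Q c := by positivity
    have e4 : (Q c : ℝ) ≤ v :=
      (pow_le_pow_iff_left₀ hQ0 hv0.le (by norm_num : (3 : ℕ) ≠ 0)).mp (by linarith)
    have e5 : v / 3 ≤ (Q c : ℝ) := by
      by_contra hlt
      push Not at hlt
      have h12 : (Q c : ℝ) ^ 3 ≤ (v / 3) ^ 3 := pow_le_pow_left₀ hQ0 hlt.le 3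
      have h13 : ((Q c : ℝ) + 1) ^ 3 ≤ (2 * (Q c : ℝ)) ^ 3 :=
        pow_le_pow_left₀ (by positivity) (by linarith) 3
      have h14 : (2 * (Q c : ℝ)) ^ 3 = 8 * (Q c : ℝ) ^ 3 := by ring
      have h15 : (v / 3) ^ 3 = v ^ 3 / 27 := by ring
      have : 0 < v ^ 3 := by positivity
      linarith
    exact ⟨e2, e3, e4, e5⟩
  -- the set of pairs
  set P : Finset (Σ _ : ℕ, ℕ) := (Finset.Ioc C (2 * C)).sigma H with hP
  let g : (Σ _ : ℕ, ℕ) → ℕ := fun x => x.1 * x.2 * b x.1 x.2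
  have hmemP : ∀ x ∈ P, x.1 ∈ Finset.Ioc C (2 * C) ∧ x.2 ∈ H x.1 := by
    intro x hx
    rw [hP, Finset.mem_sigma] at hx
    exact hx
  have hPcard : u * v ^ 2 / 36 ≤ (P.card : ℝ) := by
    rw [hP, Finset.card_sigma]
    push_cast
    have h1 : ∀ c ∈ Finset.Ioc C (2 * C), v ^ 2 / 18 ≤ ((H c).card : ℝ) := by
      intro c hc
      obtain ⟨-, -, -, e5⟩ := hAQ c hc
      obtain ⟨-, -, -, -, -, -, h7, -⟩ := hAQH c hc
      have h7r : (Q c : ℝ) ^ 2 ≤ 2 * ((H c).card : ℝ) := by exact_mod_cast h7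
      have h8 : (v / 3) ^ 2 ≤ (Q c : ℝ) ^ 2 := pow_le_pow_left₀ (by positivity) e5 2
      have h9 : (v / 3) ^ 2 = v ^ 2 / 9 := by ring
      linarith
    calc u * v ^ 2 / 36 ≤ (C : ℝ) * (v ^ 2 / 18) := by
          have : u ≤ 2 * C := by linarith
          have : u * v ^ 2 ≤ 2 * C * v ^ 2 := by gcongr
          linarith
      _ = ∑ _c ∈ Finset.Ioc C (2 * C), v ^ 2 / 18 := by
          rw [Finset.sum_const, Nat.card_Ioc, nsmul_eq_mul]
          congr 1
          have : 2 * C - C = C := by omega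
          rw [this]
      _ ≤ ∑ c ∈ Finset.Ioc C (2 * C), ((H c).card : ℝ) := Finset.sum_le_sum h1
  -- location of the products
  have hloc : ∀ x ∈ P, n ≤ g x ∧ (g x : ℝ) ≤ n + 32192 * u * v ^ 2 := by
    intro x hx
    obtain ⟨hx1, hx2⟩ := hmemP x hx
    obtain ⟨hb1, hb2⟩ := hb x.1 x.2 hx1 hx2
    obtain ⟨hc1, hc2, hc3, hc4⟩ := hcrange x.1 hx1
    obtain ⟨-, -, e4, -⟩ := hAQ x.1 hx1
    refine ⟨hb1, ?_⟩
    have h1 : (g x : ℝ) ≤ n + 16096 * (Q x.1 : ℝ) ^ 2 * x.1 := by exact_mod_cast hb2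
    have h2 : 16096 * (Q x.1 : ℝ) ^ 2 * x.1 ≤ 16096 * v ^ 2 * (2 * u) := by
      gcongr
    linarith
  have h2n : ∀ x ∈ P, g x ≤ 2 * n := by
    intro x hx
    obtain ⟨-, h2⟩ := hloc x hx
    have : (g x : ℝ) ≤ 2 * n := by
      have h3 : 32192 * u * v ^ 2 ≤ n := by
        rw [hn, hv6]
        have : (32192 : ℝ) ≤ v ^ 4 := by linarith
        calc 32192 * u * v ^ 2 = u * (32192 * v ^ 2) := by ring
          _ ≤ u * (v ^ 4 * v ^ 2) := by gcongr
      linarith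
    exact_mod_cast this
  -- smoothness
  set k := ⌊4 * v ^ 3⌋₊ with hk
  have hsmooth : ∀ x ∈ P, g x ∈ Nat.smoothNumbers (k + 1) := by
    intro x hx
    obtain ⟨hx1, hx2⟩ := hmemP x hx
    obtain ⟨hc1, hc2, hc3, hc4⟩ := hcrange x.1 hx1
    obtain ⟨e2, e3, -, -⟩ := hAQ x.1 hx1
    obtain ⟨-, -, -, -, -, h6, -, -⟩ := hAQH x.1 hx1
    have ha := Finset.mem_Ico.mp (h6 hx2)
    obtain ⟨l1, l2⟩ := hloc x hx
    have hapos : 0 < x.2 := by
      have : (0 : ℝ) < A x.1 := lt_of_lt_of_le (by positivity) e3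
      have : 0 < A x.1 := by exact_mod_cast this
      omega
    have hbpos : 0 < b x.1 x.2 := by
      rcases Nat.eq_zero_or_pos (b x.1 x.2) with h0 | h0
      · exfalso
        have : g x = 0 := by simp only [g, h0, mul_zero]
        omega
      · exact h0
    have hck : x.1 ≤ k := by
      rw [hk]; apply Nat.le_floor; linarith
    have hak : x.2 ≤ k := by
      rw [hk]; apply Nat.le_floor
      have : (x.2 : ℝ) ≤ 2 * A x.1 := by exact_mod_cast ha.2.le
      have : 0 < v ^ 3 := by positivity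
      linarith
    have hbk : b x.1 x.2 ≤ k := by
      rw [hk]; apply Nat.le_floor
      have ha1 : v ^ 3 / 3 ≤ (x.2 : ℝ) := by
        have : (A x.1 : ℝ) ≤ x.2 := by exact_mod_cast ha.1
        linarith
      have h1 : u * (v ^ 3 / 3) * (b x.1 x.2 : ℝ) ≤ u * v ^ 6 + 32192 * u * v ^ 2 := by
        rw [← hn]
        calc u * (v ^ 3 / 3) * (b x.1 x.2 : ℝ) ≤ (x.1 : ℝ) * x.2 * (b x.1 x.2 : ℝ) := by
              gcongr
          _ = (g x : ℝ) := by simp only [g]; push_cast; ring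
          _ ≤ _ := l2
      have h2 : u * v ^ 6 + 32192 * u * v ^ 2 ≤ u * (v ^ 3 / 3) * (4 * v ^ 3) := by
        have h3 : 32192 * u * v ^ 2 ≤ (1 / 3) * (u * v ^ 6) := by
          rw [hv6]
          have h4 : (32192 : ℝ) ≤ (1 / 3) * v ^ 4 := by linarith
          calc 32192 * u * v ^ 2 = u * (32192 * v ^ 2) := by ring
            _ ≤ u * ((1 / 3) * v ^ 4 * v ^ 2) := by gcongr
            _ = (1 / 3) * (u * (v ^ 4 * v ^ 2)) := by ring
        calc u * v ^ 6 + 32192 * u * v ^ 2 ≤ u * v ^ 6 + (1 / 3) * (u * v ^ 6) := by linarith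
          _ = u * (v ^ 3 / 3) * (4 * v ^ 3) := by ring
      have h5 : 0 < u * (v ^ 3 / 3) := by positivity
      exact le_of_mul_le_mul_left (h1.trans h2) h5
    apply Nat.mul_mem_smoothNumbers
    · apply Nat.mul_mem_smoothNumbers
      · exact Nat.mem_smoothNumbers_of_lt (by omega) (by omega)
      · exact Nat.mem_smoothNumbers_of_lt hapos (by omega)
    · exact Nat.mem_smoothNumbers_of_lt hbpos (by omega)
  -- distinct products
  set M := P.image g with hM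
  have hD1 : 1 ≤ D := by
    have h1 := hD n le_rfl (by omega)
    have h2 : (1 : ℝ) ≤ (n.divisors.card : ℝ) := by
      have : 0 < n.divisors.card := Finset.card_pos.mpr ⟨1, Nat.one_mem_divisors.mpr (by omega)⟩
      exact_mod_cast this
    have h3 : (1 : ℝ) ≤ (n.divisors.card : ℝ) ^ 2 := one_le_pow₀ h2
    linarith
  have hfib : ∀ m ∈ P.image g, (P.filter (fun x => g x = m)).card ≤ ⌊D⌋₊ := by
    intro m hm
    rw [Finset.mem_image] at hm
    obtain ⟨x0, hx0, rfl⟩ := hm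
    have hl := hloc x0 hx0
    have hm0 : g x0 ≠ 0 := by omega
    have h1 : (P.filter (fun x => g x = g x0)).card ≤
        ((g x0).divisors ×ˢ (g x0).divisors).card := by
      apply Finset.card_le_card_of_injOn (fun x => (x.1, x.2))
      · intro x hx
        rw [Finset.mem_coe, Finset.mem_filter] at hx
        rw [Finset.mem_coe, Finset.mem_product, Nat.mem_divisors, Nat.mem_divisors]
        refine ⟨⟨?_, hm0⟩, ⟨?_, hm0⟩⟩
        · rw [← hx.2]
          exact Dvd.intro (x.2 * b x.1 x.2) (by simp only [g]; ring)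
        · rw [← hx.2]
          exact Dvd.intro (x.1 * b x.1 x.2) (by simp only [g]; ring)
      · intro x _ y _ hxy
        simp only [Prod.mk.injEq] at hxy
        obtain ⟨x1, x2⟩ := x
        obtain ⟨y1, y2⟩ := y
        simp only at hxy
        rw [hxy.1, hxy.2]
    rw [Finset.card_product] at h1
    refine h1.trans ?_
    apply Nat.le_floor
    have := hD (g x0) hl.1 (h2n x0 hx0)
    push_cast
    rw [← pow_two]
    exact this
  have hMcard : (k : ℝ) + 1 < (M.card : ℝ) := by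
    have h1 := Finset.card_le_mul_card_image P ⌊D⌋₊ hfib
    have h2 : (P.card : ℝ) ≤ (⌊D⌋₊ : ℝ) * (M.card : ℝ) := by exact_mod_cast h1
    have h3 : (⌊D⌋₊ : ℝ) ≤ D := Nat.floor_le (by linarith)
    have h4 : (P.card : ℝ) ≤ D * (M.card : ℝ) := h2.trans (by gcongr)
    have h5 : (k : ℝ) ≤ 4 * v ^ 3 := Nat.floor_le (by positivity)
    have h6 : 180 * D * v ^ 3 < u * v ^ 2 := by
      calc 180 * D * v ^ 3 = (180 * D * v) * v ^ 2 := by ring
        _ < u * v ^ 2 := by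
          apply mul_lt_mul_of_pos_right hmain (by positivity)
    have h7 : D * (5 * v ^ 3) < D * (M.card : ℝ) := by
      calc D * (5 * v ^ 3) = (180 * D * v ^ 3) / 36 := by ring
        _ < u * v ^ 2 / 36 := by
          apply div_lt_div_of_pos_right h6 (by norm_num)
        _ ≤ (P.card : ℝ) := hPcard
        _ ≤ _ := h4
    have h8 : 5 * v ^ 3 < (M.card : ℝ) := lt_of_mul_lt_mul_left h7 (by linarith)
    linarith
  have hMsub : M ⊆ Finset.Icc n (n + ⌊32192 * u * v ^ 2⌋₊) := by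
    intro m hm
    rw [hM, Finset.mem_image] at hm
    obtain ⟨x, hx, rfl⟩ := hm
    obtain ⟨l1, l2⟩ := hloc x hx
    rw [Finset.mem_Icc]
    refine ⟨l1, ?_⟩
    have h1 : g x - n ≤ ⌊32192 * u * v ^ 2⌋₊ := by
      apply Nat.le_floor
      rw [Nat.cast_sub l1]
      linarith
    omega
  by_cases h2sq : 2 ≤ (M.filter (fun m => IsSquare m)).card
  · obtain ⟨x, hx, y, hy, hxy⟩ := Finset.one_lt_card.mp h2sq
    rw [Finset.mem_filter] at hx hy
    refine ⟨{x, y}, ?_, ?_, ?_⟩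
    · intro z hz
      rw [Finset.mem_insert, Finset.mem_singleton] at hz
      rcases hz with rfl | rfl
      · exact hMsub hx.1
      · exact hMsub hy.1
    · rw [Finset.card_pair hxy]
    · rw [Finset.prod_pair hxy]
      exact hx.2.mul hy.2
  · push Not at h2sq
    have h1 : (M.filter (fun m => IsSquare m)).card + (M.filter (fun m => ¬ IsSquare m)).card
        = M.card := by
      convert Finset.card_filter_add_card_filter_not (s := M) (fun m => IsSquare m)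
    have h3 : k + 1 < M.card := by exact_mod_cast hMcard
    obtain ⟨S, hS1, hS2, hS3⟩ := exists_square_subset (M.filter (fun m => ¬ IsSquare m)) k
      (by
        intro m hm
        rw [Finset.mem_filter, hM, Finset.mem_image] at hm
        obtain ⟨⟨x, hx, rfl⟩, -⟩ := hm
        exact hsmooth x hx) (by omega)
      (by
        intro m hm
        exact (Finset.mem_filter.mp hm).2)
    exact ⟨S, fun z hz => hMsub (Finset.mem_filter.mp (hS1 hz)).1, hS2, hS3⟩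

end MP14ee70
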