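import Mathlib

/-!
The divisor bound: for every positive real `mu` there is `K` with `d(n) ≤ K * n ^ mu`.
-/

namespace MP14ee70

open Finset

theorem pow_two_mul_bound {μ : ℝ} (hμ : 0 < μ) (e : ℕ) :
    (e : ℝ) + 1 ≤ (1 + 1 / (μ * Real.log 2)) * ((2 : ℝ) ^ (e : ℝ)) ^ μ := by
  have hl : 0 < Real.log 2 := Real.log_pos (by norm_num)
  have hml : 0 < μ * Real.log 2 := mul_pos hμ hl
  have h1 : ((2 : ℝ) ^ (e : ℝ)) ^ μ = Real.exp ((μ * Real.log 2) * e) := by
    rw [← Real.rpow_mul (by norm_num), Real.rpow_def_of_pos (by norm_num)]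
    congr 1; ring
  rw [h1]
  have h2 : (μ * Real.log 2) * e + 1 ≤ Real.exp ((μ * Real.log 2) * e) := Real.add_one_le_exp _
  have h3 : (0 : ℝ) ≤ 1 + 1 / (μ * Real.log 2) := by positivity
  calc (e : ℝ) + 1 ≤ (1 + 1 / (μ * Real.log 2)) * ((μ * Real.log 2) * e + 1) := by
        have : (1 + 1 / (μ * Real.log 2)) * ((μ * Real.log 2) * e + 1)
            = (μ * Real.log 2) * e + 1 + e + 1 / (μ * Real.log 2) := by
          field_simp; ring
        rw [this]
        have : 0 ≤ 1 / (μ * Real.log 2) := by positivity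
        have : 0 ≤ (μ * Real.log 2) * e := by positivity
        linarith
    _ ≤ _ := mul_le_mul_of_nonneg_left h2 h3

theorem card_divisors_le (μ : ℝ) (hμ : 0 < μ) :
    ∃ K : ℝ, 1 ≤ K ∧ ∀ n : ℕ, n ≠ 0 → ((n.divisors.card : ℝ)) ≤ K * (n : ℝ) ^ μ := by
  obtain ⟨P0, hP0⟩ := exists_nat_ge ((2 : ℝ) ^ (1 / μ))
  have hl : 0 < Real.log 2 := Real.log_pos (by norm_num)
  have hml : 0 < μ * Real.log 2 := mul_pos hμ hl
  set C : ℝ := 1 + 1 / (μ * Real.log 2) with hC
  have hC1 : 1 ≤ C := by
    have : 0 ≤ 1 / (μ * Real.log 2) := by positivity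
    linarith
  refine ⟨C ^ P0, one_le_pow₀ hC1, ?_⟩
  intro n hn
  rw [Nat.card_divisors hn]
  push_cast
  have hnprod : (n : ℝ) ^ μ = ∏ p ∈ n.primeFactors, ((p : ℝ) ^ (n.factorization p : ℝ)) ^ μ := by
    rw [Real.finsetProd_rpow]
    · congr 1
      conv_lhs => rw [← Nat.prod_factorization_pow_eq_self hn]
      rw [Finsupp.prod, Nat.support_factorization]
      push_cast
      refine Finset.prod_congr rfl fun p _ => ?_
      rw [Real.rpow_natCast]
    · intro i _; positivity
  have key : ∀ p ∈ n.primeFactors, ((n.factorization p : ℝ) + 1) ≤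
      (if p < P0 then C else 1) * ((p : ℝ) ^ (n.factorization p : ℝ)) ^ μ := by
    intro p hp
    have hpp : p.Prime := Nat.prime_of_mem_primeFactors hp
    have hp2 : (2 : ℝ) ≤ p := by exact_mod_cast hpp.two_le
    set e := n.factorization p with he
    split_ifs with hlt
    · refine (pow_two_mul_bound hμ e).trans ?_
      refine mul_le_mul_of_nonneg_left ?_ (by linarith)
      apply Real.rpow_le_rpow (by positivity) _ hμ.le
      exact Real.rpow_le_rpow (by norm_num) hp2 (by positivity)
    · have hge : (2 : ℝ) ^ (1 / μ) ≤ p := by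
        push Not at hlt
        have : (P0 : ℝ) ≤ p := by exact_mod_cast hlt
        linarith
      have h2 : (2 : ℝ) ≤ (p : ℝ) ^ μ := by
        calc (2 : ℝ) = ((2 : ℝ) ^ (1 / μ)) ^ μ := by
              rw [← Real.rpow_mul (by norm_num)]
              rw [one_div, inv_mul_cancel₀ hμ.ne', Real.rpow_one]
          _ ≤ _ := Real.rpow_le_rpow (by positivity) hge hμ.le
      rw [one_mul]
      have h3 : ((p : ℝ) ^ (e : ℝ)) ^ μ = ((p : ℝ) ^ μ) ^ e := by
        rw [← Real.rpow_mul (by positivity), mul_comm, Real.rpow_mul (by positivity),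
          Real.rpow_natCast]
      rw [h3]
      calc (e : ℝ) + 1 ≤ (2 : ℝ) ^ e := by
            have := Nat.lt_two_pow_self (n := e)
            have h4 : e + 1 ≤ 2 ^ e := this
            exact_mod_cast h4
        _ ≤ _ := pow_le_pow_left₀ (by norm_num) h2 e
  calc ∏ p ∈ n.primeFactors, ((n.factorization p : ℝ) + 1)
      ≤ ∏ p ∈ n.primeFactors, ((if p < P0 then C else 1) *
          ((p : ℝ) ^ (n.factorization p : ℝ)) ^ μ) := by
        apply Finset.prod_le_prod
        · intro i _; positivity
        · exact key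
    _ = (∏ p ∈ n.primeFactors, (if p < P0 then C else 1)) * (n : ℝ) ^ μ := by
        rw [Finset.prod_mul_distrib, hnprod]
    _ ≤ C ^ P0 * (n : ℝ) ^ μ := by
        refine mul_le_mul_of_nonneg_right ?_ (by positivity)
        rw [Finset.prod_ite]
        simp only [Finset.prod_const, one_pow, mul_one]
        apply pow_le_pow_right₀ hC1
        calc (n.primeFactors.filter (fun p => p < P0)).card ≤ (Finset.range P0).card := by
              apply Finset.card_le_card
              intro x hx
              simp only [Finset.mem_filter] at hx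
              exact Finset.mem_range.mpr hx.2
          _ = P0 := Finset.card_range _

end MP14ee70
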