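import Mathlib
import Pool.Agent.Lib.MP_14ee70_nt.Core
import Pool.Agent.Lib.MP_14ee70_nt.Div

/-!
Choice of parameters and the asymptotic statement.
-/

namespace MP14ee70

open Finset Filter

theorem main_small (ε : ℝ) (h0 : 0 < ε) (h1 : ε ≤ 1 / 7) :
    ∀ᶠ n : ℕ in atTop, ∃ t : ℕ, (∃ S : Finset ℕ, S ⊆ Finset.Icc n (n + t) ∧ 2 ≤ S.card ∧
      IsSquare (∏ a ∈ S, a)) ∧ (t : ℝ) ≤ (n : ℝ) ^ (3 / 7 + ε) := by
  obtain ⟨K, hK1, hK⟩ := card_divisors_le (ε / 4) (by linarith)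
  have hT : ∀ y : ℝ, 0 < y → ∀ B : ℝ, ∀ᶠ n : ℕ in atTop, B < (n : ℝ) ^ y := by
    intro y hy B
    exact ((tendsto_rpow_atTop hy).comp tendsto_natCast_atTop_atTop).eventually_gt_atTop B
  filter_upwards [hT (1 / 7 - ε / 6) (by linarith) 100,
    hT (2 * ε / 3) (by linarith) (180 * (K ^ 2 * (2 : ℝ) ^ (ε / 2))),
    hT (ε / 3) (by linarith) 32192, eventually_ge_atTop 1] with n e1 e2 e3 e4
  have hn1 : (1 : ℝ) ≤ n := by exact_mod_cast e4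
  have hn0 : (0 : ℝ) < n := by linarith
  set u : ℝ := (n : ℝ) ^ (1 / 7 + ε) with hu
  set v : ℝ := (n : ℝ) ^ (1 / 7 - ε / 6) with hv
  have hvk : ∀ k : ℕ, v ^ k = (n : ℝ) ^ ((1 / 7 - ε / 6) * k) := by
    intro k
    rw [hv, ← Real.rpow_natCast, ← Real.rpow_mul hn0.le]
  have hn : (n : ℝ) = u * v ^ 6 := by
    rw [hvk 6, hu, ← Real.rpow_add hn0]
    have : (1 / 7 + ε + (1 / 7 - ε / 6) * ((6 : ℕ) : ℝ)) = 1 := by push_cast; ring
    rw [this, Real.rpow_one]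
  have hu1 : 1 ≤ u := Real.one_le_rpow hn1 (by linarith)
  have huv : u ≤ v ^ 3 := by
    rw [hvk 3, hu]
    apply Real.rpow_le_rpow_of_exponent_le hn1
    push_cast
    linarith
  have hD : ∀ m : ℕ, n ≤ m → m ≤ 2 * n →
      ((m.divisors.card : ℝ)) ^ 2 ≤ (K * (2 * (n : ℝ)) ^ (ε / 4)) ^ 2 := by
    intro m hm1 hm2
    apply pow_le_pow_left₀ (Nat.cast_nonneg _)
    refine (hK m (by omega)).trans ?_
    apply mul_le_mul_of_nonneg_left _ (by linarith)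
    apply Real.rpow_le_rpow (by positivity) _ (by linarith)
    exact_mod_cast hm2
  have hDe : (K * (2 * (n : ℝ)) ^ (ε / 4)) ^ 2 =
      K ^ 2 * (2 : ℝ) ^ (ε / 2) * (n : ℝ) ^ (ε / 2) := by
    rw [mul_pow, ← Real.rpow_natCast ((2 * (n : ℝ)) ^ (ε / 4)), ← Real.rpow_mul (by positivity)]
    have : ε / 4 * ((2 : ℕ) : ℝ) = ε / 2 := by push_cast; ring
    rw [this, Real.mul_rpow (by norm_num) hn0.le]
    ring
  have hmain : 180 * ((K * (2 * (n : ℝ)) ^ (ε / 4)) ^ 2) * v < u := by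
    rw [hDe]
    have hu2 : u = (n : ℝ) ^ (2 * ε / 3) * ((n : ℝ) ^ (ε / 2) * v) := by
      rw [hu, hv, ← Real.rpow_add hn0, ← Real.rpow_add hn0]
      congr 1
      ring
    rw [hu2]
    calc 180 * (K ^ 2 * (2 : ℝ) ^ (ε / 2) * (n : ℝ) ^ (ε / 2)) * v
        = (180 * (K ^ 2 * (2 : ℝ) ^ (ε / 2))) * ((n : ℝ) ^ (ε / 2) * v) := by ring
      _ < _ := by
        apply mul_lt_mul_of_pos_right e2
        positivity
  obtain ⟨S, hS⟩ := core n u v _ hu1 e1.le hn huv hD hmain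
  refine ⟨_, ⟨S, hS⟩, ?_⟩
  have huv2 : u * v ^ 2 = (n : ℝ) ^ (3 / 7 + 2 * ε / 3) := by
    rw [hvk 2, hu, ← Real.rpow_add hn0]
    congr 1
    push_cast
    ring
  calc ((⌊32192 * u * v ^ 2⌋₊ : ℕ) : ℝ) ≤ 32192 * u * v ^ 2 := Nat.floor_le (by positivity)
    _ = 32192 * (u * v ^ 2) := by ring
    _ = 32192 * (n : ℝ) ^ (3 / 7 + 2 * ε / 3) := by rw [huv2]
    _ ≤ (n : ℝ) ^ (ε / 3) * (n : ℝ) ^ (3 / 7 + 2 * ε / 3) := by gcongr
    _ = (n : ℝ) ^ (3 / 7 + ε) := by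
        rw [← Real.rpow_add hn0]
        congr 1
        ring

theorem main_all (ε : ℝ) (h0 : 0 < ε) :
    ∀ᶠ n : ℕ in atTop, ∃ t : ℕ, (∃ S : Finset ℕ, S ⊆ Finset.Icc n (n + t) ∧ 2 ≤ S.card ∧
      IsSquare (∏ a ∈ S, a)) ∧ (t : ℝ) ≤ (n : ℝ) ^ (3 / 7 + ε) := by
  filter_upwards [main_small (min ε (1 / 7)) (lt_min h0 (by norm_num)) (min_le_right _ _),
    eventually_ge_atTop 1] with n hn hn1
  obtain ⟨t, hS, ht⟩ := hn
  refine ⟨t, hS, ht.trans ?_⟩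
  apply Real.rpow_le_rpow_of_exponent_le (by exact_mod_cast hn1)
  have := min_le_left ε (1 / 7)
  linarith

end MP14ee70
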