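import Mathlib

/-!
If a block `{n, …, n+t}` contains a nonempty subset with square product, then some element of the
block has only primes `≤ t` in its squarefree part.
-/

namespace MP14ee70Low

/-- all primes above `T` occur in `m` to an even power -/
def EvenAbove (T m : ℕ) : Prop := ∀ p : ℕ, p.Prime → T < p → Even (m.factorization p)

theorem exists_evenAbove {n t : ℕ} (hn : 1 ≤ n) {S : Finset ℕ} (hS : S ⊆ Finset.Icc n (n + t))
    (hne : S.Nonempty) (hsq : IsSquare (∏ a ∈ S, a)) :
    ∃ j ∈ Finset.range (t + 1), EvenAbove t (n + j) := by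
  obtain ⟨a, ha⟩ := hne
  have haI := Finset.mem_Icc.1 (hS ha)
  have hpos : ∀ b ∈ S, b ≠ 0 := fun b hb => by
    have := Finset.mem_Icc.1 (hS hb); omega
  refine ⟨a - n, Finset.mem_range.2 (by omega), ?_⟩
  have hna : n + (a - n) = a := by omega
  rw [hna]
  intro p hp hpt
  by_cases h0 : a.factorization p = 0
  · rw [h0]; exact Even.zero
  have hpa : p ∣ a := Nat.dvd_of_factorization_pos h0
  have hfac : (∏ b ∈ S, b).factorization p = ∑ b ∈ S, b.factorization p := by
    rw [Nat.factorization_prod hpos]
    simp
  have hsum : ∑ b ∈ S, b.factorization p = a.factorization p := by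
    refine Finset.sum_eq_single a (fun b hb hba => ?_) (fun h => absurd ha h)
    refine Nat.factorization_eq_zero_of_not_dvd (fun hpb => ?_)
    have hbI := Finset.mem_Icc.1 (hS hb)
    rcases lt_or_gt_of_ne hba with hlt | hlt
    · have h1 : p ∣ a - b := Nat.dvd_sub hpa hpb
      have := Nat.le_of_dvd (by omega) h1
      omega
    · have h1 : p ∣ b - a := Nat.dvd_sub hpb hpa
      have := Nat.le_of_dvd (by omega) h1
      omega
  obtain ⟨r, hr⟩ := hsq
  have : (∏ b ∈ S, b).factorization p = 2 * r.factorization p := by
    rw [hr]
    by_cases hr0 : r = 0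
    · simp [hr0]
    rw [Nat.factorization_mul hr0 hr0]
    simp [two_mul]
  rw [← hsum, ← hfac, this]
  exact even_two_mul _

/-- the elementary symmetric sum is at most `(∑ x)^k / k!` -/
theorem esymm_le (s : Finset ℕ) (x : ℕ → ℝ) (hx : ∀ i, 0 ≤ x i) (k : ℕ) :
    ∑ D ∈ s.powersetCard k, ∏ p ∈ D, x p ≤ (∑ p ∈ s, x p) ^ k / (k.factorial : ℝ) := by
  classical
  induction s using Finset.induction_on generalizing k with
  | empty =>
    cases k with
    | zero => simp
    | succ k =>
      rw [Finset.powersetCard_eq_empty.2 (by simp)]
      simp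
  | insert a s ha ih =>
    cases k with
    | zero => simp
    | succ k =>
      rw [Finset.powersetCard_succ_insert ha, Finset.sum_union, Finset.sum_image,
        Finset.sum_insert ha]
      · have h1 : ∑ D ∈ s.powersetCard k, ∏ p ∈ insert a D, x p
            = x a * ∑ D ∈ s.powersetCard k, ∏ p ∈ D, x p := by
          rw [Finset.mul_sum]
          refine Finset.sum_congr rfl (fun D hD => ?_)
          rw [Finset.prod_insert]
          exact fun h => ha ((Finset.mem_powersetCard.1 hD).1 h)
        rw [h1]
        set A := ∑ p ∈ s, x p with hA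
        have hA0 : 0 ≤ A := Finset.sum_nonneg (fun i _ => hx i)
        have h2 := ih (k + 1)
        have h3 := ih k
        have hxa := hx a
        have h4 : (A : ℝ) ^ (k + 1) + (k + 1) * x a * A ^ k ≤ (x a + A) ^ (k + 1) := by
          clear h1 h2 h3 ih
          induction k with
          | zero => simp; linarith
          | succ k ihk =>
            have e1 : (x a + A) ^ (k + 1 + 1) = (x a + A) * (x a + A) ^ (k + 1) := by ring
            rw [e1]
            have e2 : (x a + A) * (A ^ (k + 1) + (k + 1) * x a * A ^ k)
                ≤ (x a + A) * (x a + A) ^ (k + 1) :=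
              mul_le_mul_of_nonneg_left ihk (by positivity)
            refine le_trans ?_ e2
            have : 0 ≤ x a * ((k + 1 : ℝ) * x a * A ^ k) := by positivity
            push_cast
            have e3 : A ^ (k + 1) = A ^ k * A := pow_succ A k
            have e4 : A ^ (k + 1 + 1) = A ^ k * A * A := by rw [pow_succ, pow_succ]
            rw [e4, e3]
            nlinarith
        have hf : ((k + 1).factorial : ℝ) = (k + 1) * (k.factorial : ℝ) := by
          rw [Nat.factorial_succ]; push_cast; ring
        have hfp : (0 : ℝ) < (k.factorial : ℝ) := by exact_mod_cast Nat.factorial_pos k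
        have h5 : x a * ∑ D ∈ s.powersetCard k, ∏ p ∈ D, x p ≤ x a * (A ^ k / (k.factorial : ℝ)) :=
          mul_le_mul_of_nonneg_left h3 hxa
        refine le_trans (add_le_add h2 h5) ?_
        rw [hf]
        rw [div_add' _ _ _ (by positivity), div_le_div_iff_of_pos_right (by positivity)]
        refine le_trans (le_of_eq ?_) h4
        field_simp
      · intro D hD E hE hDE
        have hD' : a ∉ D := fun h => ha ((Finset.mem_powersetCard.1 (Finset.mem_coe.1 hD)).1 h)
        have hE' : a ∉ E := fun h => ha ((Finset.mem_powersetCard.1 (Finset.mem_coe.1 hE)).1 h)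
        have := congrArg (fun F => F.erase a) hDE
        simpa [Finset.erase_insert hD', Finset.erase_insert hE'] using this
      · rw [Finset.disjoint_left]
        intro D hD hD2
        obtain ⟨E, _, rfl⟩ := Finset.mem_image.1 hD2
        exact ha ((Finset.mem_powersetCard.1 hD).1 (Finset.mem_insert_self a E))

end MP14ee70Low
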