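import Mathlib
import Pool.Agent.Lib.MP_14ee70_nt.LowA

/-!
Counting the integers `m ≤ X` all of whose primes above `T` occur to an even power.
-/

namespace MP14ee70Low

open Finset

/-- `m` is divisible by a square larger than `V ^ 2` -/
def BigSq (V m : ℕ) : Prop := ∃ v, V < v ∧ v ^ 2 ∣ m

/-- `m` has at least `k` distinct prime factors `≤ T` -/
def ManyPr (T k m : ℕ) : Prop :=
  ∃ D ∈ ((Icc 1 T).filter Nat.Prime).powersetCard k, ∏ p ∈ D, p ∣ m

open Classical in
/-- integers up to `X` divisible by a square `v ^ 2` with `v > V` -/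
theorem card_large_square (X V : ℕ) (hV : 1 ≤ V) :
    (((Icc 1 X).filter (fun m => BigSq V m)).card : ℝ) ≤ X / V := by
  have h1 : (Icc 1 X).filter (fun m => BigSq V m)
      ⊆ (Icc (V + 1) (V + X)).biUnion (fun v => (Icc 1 X).filter (fun m => v ^ 2 ∣ m)) := by
    intro m hm
    obtain ⟨hm1, v, hv, hd⟩ := mem_filter.1 hm
    have hm2 := mem_Icc.1 hm1
    have h3 : v ^ 2 ≤ m := Nat.le_of_dvd (by omega) hd
    have h4 : v ≤ v ^ 2 := Nat.le_self_pow (by norm_num) v
    exact mem_biUnion.2 ⟨v, mem_Icc.2 ⟨by omega, by omega⟩, mem_filter.2 ⟨hm1, hd⟩⟩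
  have h2 : (((Icc 1 X).filter (fun m => BigSq V m)).card : ℝ)
      ≤ ∑ v ∈ Icc (V + 1) (V + X), (X : ℝ) / (v : ℝ) ^ 2 := by
    refine le_trans (Nat.cast_le.2 (le_trans (card_le_card h1) card_biUnion_le)) ?_
    rw [Nat.cast_sum]
    refine sum_le_sum (fun v hv => ?_)
    have hv1 : 1 ≤ v := by have := mem_Icc.1 hv; omega
    have h5 : ((Icc 1 X).filter (fun m => v ^ 2 ∣ m)).card = X / v ^ 2 := by
      have := Nat.card_multiples X (v ^ 2)
      rw [← Nat.Ioc_filter_dvd_card_eq_div]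
      rfl
    rw [h5]
    have := @Nat.cast_div_le ℝ _ _ _ X (v ^ 2)
    push_cast at this
    exact this
  refine le_trans h2 ?_
  have h6 : ∀ n : ℕ, ∑ v ∈ Icc (V + 1) (V + n), (X : ℝ) / (v : ℝ) ^ 2
      ≤ X / V - X / ((V + n : ℕ) : ℝ) := by
    intro n
    induction n with
    | zero => simp
    | succ n ih =>
      rw [show V + (n + 1) = (V + n) + 1 by ring, sum_Icc_succ_top (by omega)]
      have hVn : (0 : ℝ) < ((V + n : ℕ) : ℝ) := by
        have : 0 < V + n := by omega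
        exact_mod_cast this
      have hX : (0 : ℝ) ≤ X := Nat.cast_nonneg X
      have h7 : (X : ℝ) / (((V + n + 1 : ℕ)) : ℝ) ^ 2
          ≤ X / ((V + n : ℕ) : ℝ) - X / ((V + n + 1 : ℕ) : ℝ) := by
        have e : ((V + n + 1 : ℕ) : ℝ) = ((V + n : ℕ) : ℝ) + 1 := by push_cast; ring
        rw [e]
        set a := ((V + n : ℕ) : ℝ)
        rw [div_sub_div _ _ (by positivity) (by positivity), div_le_div_iff₀ (by positivity)
          (by positivity)]
        nlinarith [mul_nonneg hX (by positivity : 0 ≤ a), mul_nonneg hX (by positivity : 0 ≤ a ^ 2)]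
      linarith
  have h8 := h6 X
  have h9 : (0 : ℝ) ≤ (X : ℝ) / ((V + X : ℕ) : ℝ) := by positivity
  linarith

open Classical in
/-- integers up to `X` with at least `k` distinct prime factors `≤ T` -/
theorem card_many_primes (X T k : ℕ) :
    (((Icc 1 X).filter (fun m => ManyPr T k m)).card : ℝ)
      ≤ X * ((∑ p ∈ (Icc 1 T).filter Nat.Prime, (1 : ℝ) / p) ^ k / (k.factorial : ℝ)) := by
  have h1 : (Icc 1 X).filter (fun m => ManyPr T k m) ⊆ (((Icc 1 T).filter Nat.Prime).powersetCard k).biUnion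
        (fun D => (Icc 1 X).filter (fun m => ∏ p ∈ D, p ∣ m)) := by
    intro m hm
    obtain ⟨hm1, D, hD, hd⟩ := mem_filter.1 hm
    exact mem_biUnion.2 ⟨D, hD, mem_filter.2 ⟨hm1, hd⟩⟩
  refine le_trans (Nat.cast_le.2 (le_trans (card_le_card h1) card_biUnion_le)) ?_
  rw [Nat.cast_sum]
  have h2 := esymm_le ((Icc 1 T).filter Nat.Prime) (fun p => (1 : ℝ) / p)
    (fun i => by positivity) k
  refine le_trans ?_ (mul_le_mul_of_nonneg_left h2 (Nat.cast_nonneg X))
  rw [mul_sum]
  refine sum_le_sum (fun D hD => ?_)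
  have h5 : ((Icc 1 X).filter (fun m => ∏ p ∈ D, p ∣ m)).card = X / ∏ p ∈ D, p := by
    rw [← Nat.Ioc_filter_dvd_card_eq_div]
    rfl
  rw [h5]
  refine le_trans (@Nat.cast_div_le ℝ _ _ _ X (∏ p ∈ D, p)) ?_
  push_cast
  rw [div_eq_mul_inv, ← Finset.prod_inv_distrib]
  simp [one_div]

/-- structure: a small-kernel integer has a large square divisor, is small, or has many small
prime factors -/
theorem evenAbove_cases {X T V k m : ℕ} (hT : 2 ≤ T) (hk : T ^ k * V ^ 2 ≤ X / V) (hm1 : 1 ≤ m)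
    (h : EvenAbove T m) :
    m ≤ X / V ∨ (∃ v, V < v ∧ v ^ 2 ∣ m) ∨
      ∃ D ∈ ((Icc 1 T).filter Nat.Prime).powersetCard k, ∏ p ∈ D, p ∣ m := by
  by_cases hsm : m ≤ X / V
  · exact Or.inl hsm
  obtain ⟨u, v, huv, hu⟩ := Nat.sq_mul_squarefree m
  -- `v ^ 2 * u = m`
  have hv0 : v ≠ 0 := by
    rintro rfl
    simp at huv; omega
  have hu0 : u ≠ 0 := by
    rintro rfl
    simp at huv; omega
  by_cases hvV : V < v
  · exact Or.inr (Or.inl ⟨v, hvV, Dvd.intro _ huv⟩)
  refine Or.inr (Or.inr ?_)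
  have hprimes : ∀ p ∈ u.primeFactors, p ≤ T := by
    intro p hp
    by_contra hpT
    have hpp := Nat.prime_of_mem_primeFactors hp
    have hpu := Nat.dvd_of_mem_primeFactors hp
    have h1 := h p hpp (by omega)
    rw [← huv, Nat.factorization_mul (pow_ne_zero 2 hv0) hu0, Nat.factorization_pow] at h1
    have h2 : u.factorization p = 1 := by
      have h3 := hu.natFactorization_le_one p
      have h4 := (Nat.Prime.dvd_iff_one_le_factorization hpp hu0).1 hpu
      omega
    simp [h2] at h1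
  have hulow : T ^ k ≤ u := by
    by_contra hlt
    push Not at hlt
    have h1 : m ≤ V ^ 2 * T ^ k := by
      rw [← huv]
      exact Nat.mul_le_mul (Nat.pow_le_pow_left (by omega) 2) (by omega)
    have h2 : V ^ 2 * T ^ k ≤ X / V := by rw [mul_comm]; exact hk
    omega
  have huprod : ∏ p ∈ u.primeFactors, p = u := Nat.prod_primeFactors_of_squarefree hu
  have hup : u ≤ T ^ u.primeFactors.card := by
    calc u = ∏ p ∈ u.primeFactors, p := huprod.symm
      _ ≤ ∏ _p ∈ u.primeFactors, T := prod_le_prod' hprimes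
      _ = T ^ u.primeFactors.card := by simp
  have hcard : k ≤ u.primeFactors.card := (Nat.pow_le_pow_iff_right (by omega)).1
    (le_trans hulow hup)
  obtain ⟨D, hD, hDk⟩ := exists_subset_card_eq hcard
  refine ⟨D, mem_powersetCard.2 ⟨fun p hp => ?_, hDk⟩, ?_⟩
  · have h1 := hD hp
    exact mem_filter.2 ⟨mem_Icc.2 ⟨(Nat.prime_of_mem_primeFactors h1).one_lt.le, hprimes p h1⟩,
      Nat.prime_of_mem_primeFactors h1⟩
  · calc ∏ p ∈ D, p ∣ ∏ p ∈ u.primeFactors, p := prod_dvd_prod_of_subset _ _ _ hD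
      _ = u := huprod
      _ ∣ m := Dvd.intro_left _ huv

open Classical in
theorem card_evenAbove {X T V k : ℕ} (hT : 2 ≤ T) (hV : 1 ≤ V) (hk : T ^ k * V ^ 2 ≤ X / V) :
    (((Icc 1 X).filter (fun m => EvenAbove T m)).card : ℝ)
      ≤ X * (2 / V + (∑ p ∈ (Icc 1 T).filter Nat.Prime, (1 : ℝ) / p) ^ k / (k.factorial : ℝ)) := by
  have h1 : (Icc 1 X).filter (fun m => EvenAbove T m) ⊆
      (Icc 1 (X / V)) ∪ ((Icc 1 X).filter (fun m => BigSq V m) ∪
        (Icc 1 X).filter (fun m => ManyPr T k m)) := by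
    intro m hm
    obtain ⟨hm1, hm2⟩ := mem_filter.1 hm
    rcases evenAbove_cases hT hk (mem_Icc.1 hm1).1 hm2 with h | h | h
    · exact mem_union_left _ (mem_Icc.2 ⟨(mem_Icc.1 hm1).1, h⟩)
    · exact mem_union_right _ (mem_union_left _ (mem_filter.2 ⟨hm1, h⟩))
    · exact mem_union_right _ (mem_union_right _ (mem_filter.2 ⟨hm1, h⟩))
  have h2 := le_trans (card_le_card h1) (le_trans (card_union_le _ _)
    (Nat.add_le_add_left (card_union_le _ _) _))
  have h3 : (((Icc 1 X).filter (fun m => EvenAbove T m)).card : ℝ)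
      ≤ ((Icc 1 (X / V)).card : ℝ)
        + ((((Icc 1 X).filter (fun m => BigSq V m)).card : ℝ)
          + (((Icc 1 X).filter (fun m => ManyPr T k m)).card : ℝ)) := by exact_mod_cast h2
  have h4 : ((Icc 1 (X / V)).card : ℝ) ≤ X / V := by
    rw [Nat.card_Icc]
    have := @Nat.cast_div_le ℝ _ _ _ X V
    simpa using this
  have h5 := card_large_square X V hV
  have h6 := card_many_primes X T k
  calc (((Icc 1 X).filter (fun m => EvenAbove T m)).card : ℝ) ≤ _ := h3
    _ ≤ X / V + (X / V + X * ((∑ p ∈ (Icc 1 T).filter Nat.Prime, (1 : ℝ) / p) ^ k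
        / (k.factorial : ℝ))) := add_le_add h4 (add_le_add h5 h6)
    _ = X * (2 / V + (∑ p ∈ (Icc 1 T).filter Nat.Prime, (1 : ℝ) / p) ^ k
        / (k.factorial : ℝ)) := by ring

end MP14ee70Low
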