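import Mathlib

/-!
An upper bound for the sum of the reciprocals of the primes up to `T`, from the primorial bound.
-/

namespace MP14ee70Low

open Finset

theorem card_primes_block (j : ℕ) :
    (j : ℝ) * (((Icc (2 ^ j + 1) (2 ^ (j + 1))).filter Nat.Prime).card : ℝ) ≤ 4 * 2 ^ j := by
  have h1 : (2 ^ j) ^ ((Icc (2 ^ j + 1) (2 ^ (j + 1))).filter Nat.Prime).card
      ≤ primorial (2 ^ (j + 1)) := by
    rw [primorial, ← Finset.prod_const]
    refine le_trans (Finset.prod_le_prod' (g := fun p => p) (fun p hp => ?_)) ?_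
    · have := mem_Icc.1 (mem_filter.1 hp).1
      omega
    · refine Finset.prod_le_prod_of_subset_of_one_le' (fun p hp => ?_) (fun p hp _ => ?_)
      · have := mem_Icc.1 (mem_filter.1 hp).1
        exact mem_filter.2 ⟨mem_range.2 (by omega), (mem_filter.1 hp).2⟩
      · exact (mem_filter.1 hp).2.one_lt.le
  have h2 := le_trans h1 (primorial_le_four_pow (2 ^ (j + 1)))
  rw [← pow_mul, show (4 : ℕ) = 2 ^ 2 by norm_num, ← pow_mul] at h2
  have h3 := (Nat.pow_le_pow_iff_right (by norm_num : 1 < 2)).1 h2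
  have h4 : (j : ℝ) * (((Icc (2 ^ j + 1) (2 ^ (j + 1))).filter Nat.Prime).card : ℝ)
      ≤ 2 * 2 ^ (j + 1) := by exact_mod_cast h3
  have h5 : (2 : ℝ) ^ (j + 1) = 2 * 2 ^ j := by ring
  linarith

theorem sum_block (j : ℕ) (hj : 1 ≤ j) :
    ∑ p ∈ (Icc (2 ^ j + 1) (2 ^ (j + 1))).filter Nat.Prime, (1 : ℝ) / p ≤ 4 / j := by
  have h1 : ∑ p ∈ (Icc (2 ^ j + 1) (2 ^ (j + 1))).filter Nat.Prime, (1 : ℝ) / p
      ≤ ∑ _p ∈ (Icc (2 ^ j + 1) (2 ^ (j + 1))).filter Nat.Prime, (1 : ℝ) / 2 ^ j := by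
    refine sum_le_sum (fun p hp => ?_)
    have := (mem_Icc.1 (mem_filter.1 hp).1).1
    have h2 : ((2 : ℝ) ^ j) ≤ p := by
      have : 2 ^ j ≤ p := by omega
      exact_mod_cast this
    exact one_div_le_one_div_of_le (by positivity) h2
  refine le_trans h1 ?_
  rw [sum_const, nsmul_eq_mul]
  have h3 := card_primes_block j
  have hj0 : (0 : ℝ) < j := by exact_mod_cast hj
  rw [mul_one_div, div_le_div_iff₀ (by positivity) hj0]
  linarith

theorem sum_primes_pow (J : ℕ) :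
    ∑ p ∈ (Icc 1 (2 ^ (J + 1))).filter Nat.Prime, (1 : ℝ) / p
      ≤ 1 / 2 + ∑ j ∈ Icc 1 J, 4 / (j : ℝ) := by
  induction J with
  | zero =>
    have : (Icc 1 (2 ^ (0 + 1))).filter Nat.Prime = {2} := by decide
    rw [this]; simp
  | succ J ih =>
    have h1 : (Icc 1 (2 ^ (J + 1 + 1))).filter Nat.Prime
        = (Icc 1 (2 ^ (J + 1))).filter Nat.Prime
          ∪ (Icc (2 ^ (J + 1) + 1) (2 ^ (J + 1 + 1))).filter Nat.Prime := by
      rw [← filter_union]
      congr 1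
      ext p
      have : 2 ^ (J + 1) ≤ 2 ^ (J + 1 + 1) := Nat.pow_le_pow_right (by norm_num) (by omega)
      simp only [mem_union, mem_Icc]
      omega
    have h2 : Disjoint ((Icc 1 (2 ^ (J + 1))).filter Nat.Prime)
        ((Icc (2 ^ (J + 1) + 1) (2 ^ (J + 1 + 1))).filter Nat.Prime) := by
      rw [disjoint_left]
      intro p hp hq
      have := mem_Icc.1 (mem_filter.1 hp).1
      have := mem_Icc.1 (mem_filter.1 hq).1
      omega
    rw [h1, sum_union h2, sum_Icc_succ_top (by omega)]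
    have h3 := sum_block (J + 1) (by omega)
    push_cast at h3 ⊢
    linarith

/-- `∑_{p ≤ T} 1/p ≤ 5 + 4 log (log₂ T)` in a crude form -/
theorem sum_primes_le (T J : ℕ) (hT : T ≤ 2 ^ (J + 1)) :
    ∑ p ∈ (Icc 1 T).filter Nat.Prime, (1 : ℝ) / p ≤ 5 + 4 * Real.log J := by
  have h1 : ∑ p ∈ (Icc 1 T).filter Nat.Prime, (1 : ℝ) / p
      ≤ ∑ p ∈ (Icc 1 (2 ^ (J + 1))).filter Nat.Prime, (1 : ℝ) / p := by
    refine sum_le_sum_of_subset_of_nonneg (fun p hp => ?_) (fun p _ _ => by positivity)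
    have := mem_Icc.1 (mem_filter.1 hp).1
    exact mem_filter.2 ⟨mem_Icc.2 ⟨this.1, by omega⟩, (mem_filter.1 hp).2⟩
  have h2 := sum_primes_pow J
  have h3 : ∑ j ∈ Icc 1 J, 4 / (j : ℝ) = 4 * ((harmonic J : ℚ) : ℝ) := by
    rw [harmonic_eq_sum_Icc]
    push_cast
    rw [mul_sum]
    refine sum_congr rfl (fun j _ => by rw [div_eq_mul_inv])
  have h4 := harmonic_le_one_add_log J
  rw [h3] at h2
  linarith

end MP14ee70Low
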