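import Mathlib

/-!
Asymptotic bookkeeping for the lower bound.
-/

namespace MP14ee70Low

open Filter Real

theorem evt_ell (ε C : ℝ) (hε : 0 < ε) :
    ∀ᶠ y : ℝ in atTop, (1 / 2) * log y + log (5 + 4 * y) + C ≤ ε * y := by
  have h1 : ∀ᶠ y : ℝ in atTop, log y ≤ (ε / 4) * y := by
    have := Real.isLittleO_log_id_atTop.bound (by positivity : 0 < ε / 4)
    filter_upwards [this, eventually_ge_atTop (1 : ℝ)] with y hy h1y
    simp only [id] at hy
    rw [norm_of_nonneg (log_nonneg h1y), norm_of_nonneg (by linarith)] at hy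
    exact hy
  filter_upwards [h1, eventually_ge_atTop (1 : ℝ),
    eventually_ge_atTop ((log 9 + C) / (ε / 4))] with y h1y h2y h3y
  have h4 : log (5 + 4 * y) ≤ log 9 + log y := by
    rw [← log_mul (by norm_num) (by linarith)]
    exact log_le_log (by linarith) (by linarith)
  rw [div_le_iff₀ (by positivity)] at h3y
  have h5 : 0 ≤ log y := log_nonneg h2y
  nlinarith

theorem evt_s_le (η : ℝ) (hη : 0 < η) : ∀ᶠ L : ℝ in atTop, √(L * log L) ≤ η * L := by
  have h1 : ∀ᶠ y : ℝ in atTop, log y ≤ (η ^ 2) * y := by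
    have := Real.isLittleO_log_id_atTop.bound (by positivity : 0 < η ^ 2)
    filter_upwards [this, eventually_ge_atTop (1 : ℝ)] with y hy h1y
    simp only [id] at hy
    rw [norm_of_nonneg (log_nonneg h1y), norm_of_nonneg (by linarith)] at hy
    exact hy
  filter_upwards [h1, eventually_ge_atTop (1 : ℝ)] with L h1L h2L
  refine Real.sqrt_le_iff.2 ⟨by positivity, ?_⟩
  nlinarith

theorem evt_s_ge (M : ℝ) : ∀ᶠ L : ℝ in atTop, M ≤ √(L * log L) := by
  filter_upwards [eventually_ge_atTop (1 : ℝ), eventually_ge_atTop (M ^ 2),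
    Real.tendsto_log_atTop.eventually_ge_atTop 1] with L h1 h2 h3
  refine Real.le_sqrt_of_sq_le ?_
  nlinarith

/-- the main numerical inequality -/
theorem evt_main (c γ v B : ℝ) (hc : 0 < c) (hv : 0 < v) (hγ : γ < 1 / (2 * c)) :
    ∀ᶠ L : ℝ in atTop, ∀ k : ℕ,
      (L - 3 * (v * √(L * log L) + 1)) / (c * √(L * log L)) - 1 ≤ k →
      0 < k ∧ γ * √(L * log L) + B ≤ k * (log k - 1 - log (5 + 4 * log L)) := by
  -- choose ε
  obtain ⟨ε, hε0, hε1, hεγ⟩ : ∃ ε : ℝ, 0 < ε ∧ ε < 1 / 2 ∧ γ < (1 - ε) * (1 / 2 - ε) / c := by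
    have hcont : Tendsto (fun ε : ℝ => (1 - ε) * (1 / 2 - ε) / c) (nhdsWithin 0 (Set.Ioi 0))
        (nhds ((1 - 0) * (1 / 2 - 0) / c)) := by
      refine Tendsto.mono_left (Continuous.tendsto (by fun_prop) _) nhdsWithin_le_nhds
    have h1 : γ < (1 - 0) * (1 / 2 - 0) / c := by
      refine lt_of_lt_of_eq hγ ?_
      field_simp
      norm_num
    have e1 : ∀ᶠ ε in nhdsWithin (0 : ℝ) (Set.Ioi 0), 0 < ε := self_mem_nhdsWithin
    have e2 : ∀ᶠ ε in nhdsWithin (0 : ℝ) (Set.Ioi 0), ε < 1 / 2 :=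
      nhdsWithin_le_nhds (Iio_mem_nhds (by norm_num : (0 : ℝ) < 1 / 2))
    obtain ⟨ε, hε, hε2, hε3⟩ := ((hcont.eventually (lt_mem_nhds h1)).and (e1.and e2)).exists
    exact ⟨ε, hε2, hε3, hε⟩
  set κ := (1 - ε) * (1 / 2 - ε) / c with hκ
  have hell := (Real.tendsto_log_atTop).eventually
    (evt_ell ε (1 - log ((1 - ε) / c)) hε0)
  have hs1 := evt_s_le (ε / (3 * v + c + 1) / 2) (by positivity)
  filter_upwards [hell, hs1, evt_s_ge 1, evt_s_ge ((B) / (κ - γ)), evt_s_ge (6 / ε),
    eventually_ge_atTop (1 : ℝ), Real.tendsto_log_atTop.eventually_ge_atTop 1]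
    with L hL1 hL2 hL3 hL4 hL5 hL6 hL7
  intro k hk
  set ℓ := log L with hℓ
  set s := √(L * ℓ) with hs
  have hs0 : 0 < s := by linarith
  have hLpos : 0 < L := by linarith
  have hss : s ^ 2 = L * ℓ := Real.sq_sqrt (by positivity)
  -- lower bound for k
  have hden : 0 < 3 * v + c + 1 := by positivity
  have h2 : (3 * v + c + 1) * s ≤ ε * L / 2 := by
    have : (3 * v + c + 1) * s ≤ (3 * v + c + 1) * (ε / (3 * v + c + 1) / 2 * L) :=
      mul_le_mul_of_nonneg_left hL2 hden.le
    refine le_trans this (le_of_eq ?_)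
    field_simp
  have h3 : 3 ≤ ε * L / 2 := by
    have : 6 ≤ ε * L := by
      have h31 : 6 / ε ≤ L := by
        have : s ≤ L := by
          have h32 : ε / (3 * v + c + 1) / 2 ≤ 1 := by
            rw [div_div, div_le_one (by positivity)]
            nlinarith
          calc s ≤ ε / (3 * v + c + 1) / 2 * L := hL2
            _ ≤ 1 * L := mul_le_mul_of_nonneg_right h32 hLpos.le
            _ = L := one_mul L
        linarith
      rw [div_le_iff₀ hε0] at h31
      linarith
    linarith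
  have h4 : (1 - ε) * (L / (c * s)) ≤ k := by
    refine le_trans ?_ hk
    have h5 : (1 - ε) * (L / (c * s)) = ((1 - ε) * L) / (c * s) := by ring
    rw [h5, le_sub_iff_add_le, div_add_one (by positivity), div_le_div_iff_of_pos_right
      (by positivity)]
    nlinarith
  have hε' : 0 < 1 - ε := by linarith
  have hk0 : (0 : ℝ) < k := lt_of_lt_of_le (by positivity) h4
  refine ⟨by exact_mod_cast hk0, ?_⟩
  -- log k
  have h6 : log ((1 - ε) / c) + (1 / 2) * ℓ - (1 / 2) * log ℓ ≤ log k := by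
    have h7 : log ((1 - ε) * (L / (c * s))) ≤ log k := log_le_log (by positivity) h4
    refine le_trans (le_of_eq ?_) h7
    have h8 : (1 - ε) * (L / (c * s)) = ((1 - ε) / c) * (L / s) := by field_simp
    rw [h8, log_mul (by positivity) (by positivity), log_div (x := L) (by positivity)
      (by positivity)]
    have h9 : log s = (1 / 2) * (log L + log ℓ) := by
      rw [hs, Real.log_sqrt (by positivity), log_mul (by positivity) (by positivity)]
      ring
    rw [h9, ← hℓ]
    ring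
  have h10 : (1 / 2 - ε) * ℓ ≤ log k - 1 - log (5 + 4 * ℓ) := by linarith
  have h11 : (1 - ε) * (L / (c * s)) * ((1 / 2 - ε) * ℓ)
      ≤ k * (log k - 1 - log (5 + 4 * ℓ)) := by
    refine mul_le_mul h4 h10 ?_ hk0.le
    have : 0 < 1 / 2 - ε := by linarith
    positivity
  have h12 : (1 - ε) * (L / (c * s)) * ((1 / 2 - ε) * ℓ) = κ * s := by
    rw [hκ]
    field_simp
    nlinarith [hss]
  rw [h12] at h11
  have h13 : B ≤ (κ - γ) * s := by
    have h14 : 0 < κ - γ := by linarith
    have := (div_le_iff₀ h14).1 hL4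
    linarith
  linarith

end MP14ee70Low
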