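import Mathlib
import Pool.Agent.Lib.MP_14ee70_nt.LowA
import Pool.Agent.Lib.MP_14ee70_nt.LowB
import Pool.Agent.Lib.MP_14ee70_nt.LowC
import Pool.Agent.Lib.MP_14ee70_nt.LowD

/-!
Counting the `n ≤ N` whose block `{n, …, n+t}`, `t ≤ T`, has a nonempty square subset product.
-/

namespace MP14ee70Low

open Finset Filter Real

open Classical in
theorem count_bad {N T V k : ℕ} (hT : 2 ≤ T) (hV : 1 ≤ V) (hk : T ^ k * V ^ 3 ≤ N)
    (bad : ℕ → Prop)
    (hbad : ∀ n, bad n → ∃ t ≤ T, ∃ S : Finset ℕ, S ⊆ Icc n (n + t) ∧ S.Nonempty ∧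
      IsSquare (∏ a ∈ S, a)) :
    (((Icc 1 N).filter bad).card : ℝ)
      ≤ (T + 1) * ((N + T) * (2 / V
        + (∑ p ∈ (Icc 1 T).filter Nat.Prime, (1 : ℝ) / p) ^ k / (k.factorial : ℝ))) := by
  have h1 : (Icc 1 N).filter bad ⊆ (range (T + 1)).biUnion
      (fun j => (Icc 1 N).filter (fun n => EvenAbove T (n + j))) := by
    intro n hn
    obtain ⟨hn1, hn2⟩ := mem_filter.1 hn
    obtain ⟨t, htT, S, hS, hne, hsq⟩ := hbad n hn2
    obtain ⟨j, hj, hE⟩ := exists_evenAbove (mem_Icc.1 hn1).1 hS hne hsq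
    refine mem_biUnion.2 ⟨j, mem_range.2 (by have := mem_range.1 hj; omega),
      mem_filter.2 ⟨hn1, fun p hp hpT => hE p hp (by omega)⟩⟩
  have hk' : T ^ k * V ^ 2 ≤ (N + T) / V := by
    rw [Nat.le_div_iff_mul_le (by omega)]
    calc T ^ k * V ^ 2 * V = T ^ k * V ^ 3 := by ring
      _ ≤ N := hk
      _ ≤ N + T := by omega
  have h2 := card_evenAbove (X := N + T) hT hV hk'
  have h3 : ∀ j ∈ range (T + 1), ((Icc 1 N).filter (fun n => EvenAbove T (n + j))).card
      ≤ ((Icc 1 (N + T)).filter (fun m => EvenAbove T m)).card := by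
    intro j hj
    refine card_le_card_of_injOn (fun n => n + j) (fun n hn => ?_) (fun a _ b _ h => by
      simpa using h)
    have hn' := mem_filter.1 (mem_coe.1 hn)
    have h4 := mem_Icc.1 hn'.1
    have h5 := mem_range.1 hj
    exact mem_coe.2 (mem_filter.2 ⟨mem_Icc.2 ⟨by show 1 ≤ n + j; omega,
      by show n + j ≤ N + T; omega⟩, hn'.2⟩)
  have h4 : ((Icc 1 N).filter bad).card
      ≤ (T + 1) * ((Icc 1 (N + T)).filter (fun m => EvenAbove T m)).card := by
    refine le_trans (card_le_card h1) (le_trans card_biUnion_le ?_)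
    refine le_trans (sum_le_sum h3) ?_
    simp
  have h5 : (((Icc 1 N).filter bad).card : ℝ)
      ≤ (T + 1) * (((Icc 1 (N + T)).filter (fun m => EvenAbove T m)).card : ℝ) := by
    exact_mod_cast h4
  refine le_trans h5 (mul_le_mul_of_nonneg_left ?_ (by positivity))
  push_cast at h2
  exact h2

open Classical in
theorem main_count (c δ : ℝ) (hc : 0 < c) (hδ : δ < 1 / (2 * c) - c) :
    ∀ᶠ N : ℕ in atTop, ∀ bad : ℕ → Prop,
      (∀ n, bad n → ∃ t : ℕ, (t : ℝ) ≤ exp (c * √(log N * log (log N))) ∧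
        ∃ S : Finset ℕ, S ⊆ Icc n (n + t) ∧ S.Nonempty ∧ IsSquare (∏ a ∈ S, a)) →
      (((Icc 1 N).filter bad).card : ℝ) ≤ N * exp (-(δ * √(log N * log (log N)))) := by
  set v : ℝ := c + |δ| + 1 with hv
  have hv0 : 0 < v := by positivity
  have hvδ : 1 ≤ v - c - δ := by have := le_abs_self δ; linarith
  have hγ : c + δ < 1 / (2 * c) := by linarith
  have hmain := evt_main c (c + δ) v (log 8) hc hv0 hγ
  have hs1 := evt_s_le (log 2 / c) (by have := log_pos one_lt_two; positivity)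
  have hs2 := evt_s_le (1 / (3 * v)) (by positivity)
  have hall : ∀ᶠ L : ℝ in atTop, (∀ k : ℕ,
      (L - 3 * (v * √(L * log L) + 1)) / (c * √(L * log L)) - 1 ≤ k →
      0 < k ∧ (c + δ) * √(L * log L) + log 8 ≤ k * (log k - 1 - log (5 + 4 * log L))) ∧
      √(L * log L) ≤ log 2 / c * L ∧ √(L * log L) ≤ 1 / c * L
      ∧ 1 / c ≤ √(L * log L) ∧ log 16 ≤ √(L * log L) ∧ 1 ≤ L ∧ 1 ≤ log L
      ∧ v * √(L * log L) ≤ L / 6 ∧ 6 ≤ L := by
    have hs3 := evt_s_le (1 / c) (by positivity)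
    have hs4 := evt_s_le (1 / (6 * v)) (by positivity)
    filter_upwards [hmain, hs1, hs3, evt_s_ge (1 / c), evt_s_ge (log 16), hs4,
      eventually_ge_atTop (6 : ℝ), Real.tendsto_log_atTop.eventually_ge_atTop 1]
      with L a1 a2 a3 a4 a5 a6 a7 a8
    refine ⟨a1, a2, a3, a4, a5, by linarith, a8, ?_, a7⟩
    calc v * √(L * log L) ≤ v * (1 / (6 * v) * L) := mul_le_mul_of_nonneg_left a6 hv0.le
      _ = L / 6 := by field_simp
  have hlogN : Tendsto (fun N : ℕ => log (N : ℝ)) atTop atTop :=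
    Real.tendsto_log_atTop.comp tendsto_natCast_atTop_atTop
  filter_upwards [hlogN.eventually hall, eventually_ge_atTop 1] with N hN hN1
  obtain ⟨b1, b2, b3, b4, b5, b6, b7, b8, b9⟩ := hN
  intro bad hbad
  have hNpos : (0 : ℝ) < N := by exact_mod_cast hN1
  set L := log (N : ℝ) with hL
  set ℓ := log L with hℓ
  set s := √(L * ℓ) with hs
  have hs0 : 0 < s := lt_of_lt_of_le (by positivity) b4
  have hLN : exp L = N := exp_log hNpos
  have hcs1 : 1 ≤ c * s := by
    rw [div_le_iff₀ hc] at b4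
    linarith
  set T : ℕ := ⌊exp (c * s)⌋₊ with hTdef
  set V : ℕ := ⌈exp (v * s)⌉₊ with hVdef
  set k : ℕ := ⌊(L - 3 * (v * s + 1)) / (c * s)⌋₊ with hkdef
  have hT2 : 2 ≤ T := by
    refine Nat.le_floor ?_
    have h1 : exp 1 ≤ exp (c * s) := exp_le_exp.2 hcs1
    have h2 := Real.exp_one_gt_d9
    push_cast
    linarith
  have hTle : (T : ℝ) ≤ exp (c * s) := Nat.floor_le (exp_pos _).le
  have hVge : exp (v * s) ≤ V := Nat.le_ceil _
  have hV1 : 1 ≤ V := Nat.one_le_ceil_iff.2 (exp_pos _)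
  have hVle : (V : ℝ) ≤ exp (v * s + 1) := by
    have h1 : (V : ℝ) < exp (v * s) + 1 := Nat.ceil_lt_add_one (exp_pos _).le
    have h2 : (1 : ℝ) ≤ exp (v * s) := one_le_exp (by positivity)
    have h3 : exp (v * s + 1) = exp (v * s) * exp 1 := exp_add _ _
    have h4 := Real.exp_one_gt_d9
    nlinarith
  have hknn : 0 ≤ (L - 3 * (v * s + 1)) / (c * s) := by
    apply div_nonneg _ (by positivity)
    linarith
  have hkle : (k : ℝ) ≤ (L - 3 * (v * s + 1)) / (c * s) := Nat.floor_le hknn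
  have hkge : (L - 3 * (v * s + 1)) / (c * s) - 1 ≤ k := by
    have := Nat.lt_floor_add_one ((L - 3 * (v * s + 1)) / (c * s))
    rw [← hkdef] at this
    linarith
  obtain ⟨hk0, hkmain⟩ := b1 k hkge
  -- the size condition
  have hsize : T ^ k * V ^ 3 ≤ N := by
    have h1 : ((T ^ k * V ^ 3 : ℕ) : ℝ) ≤ N := by
      push_cast
      have e1 : (T : ℝ) ^ k ≤ exp (c * s) ^ k := pow_le_pow_left₀ (by positivity) hTle k
      have e2 : (V : ℝ) ^ 3 ≤ exp (v * s + 1) ^ 3 := pow_le_pow_left₀ (by positivity) hVle 3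
      calc (T : ℝ) ^ k * (V : ℝ) ^ 3 ≤ exp (c * s) ^ k * exp (v * s + 1) ^ 3 :=
            mul_le_mul e1 e2 (by positivity) (by positivity)
        _ = exp (k * (c * s) + 3 * (v * s + 1)) := by
            rw [← exp_nat_mul, ← exp_nat_mul, ← exp_add]; push_cast; ring_nf
        _ ≤ exp L := by
            refine exp_le_exp.2 ?_
            have := (le_div_iff₀ (by positivity : 0 < c * s)).1 hkle
            linarith
        _ = N := hLN
    exact_mod_cast h1
  have hcount := count_bad hT2 hV1 hsize bad (fun n hn => by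
    obtain ⟨t, ht, S, hS⟩ := hbad n hn
    exact ⟨t, Nat.le_floor ht, S, hS⟩)
  refine le_trans hcount ?_
  -- bounds
  set P := ∑ p ∈ (Icc 1 T).filter Nat.Prime, (1 : ℝ) / p with hP
  have hP0 : 0 ≤ P := sum_nonneg (fun p _ => by positivity)
  have hPle : P ≤ 5 + 4 * ℓ := by
    have hJ : T ≤ 2 ^ (⌊L⌋₊ + 1) := by
      have h1 : (T : ℝ) ≤ (2 : ℝ) ^ (⌊L⌋₊ + 1) := by
        refine le_trans hTle ?_
        have h2 : (2 : ℝ) ^ (⌊L⌋₊ + 1) = exp (((⌊L⌋₊ + 1 : ℕ) : ℝ) * log 2) := by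
          rw [exp_nat_mul, exp_log (by norm_num)]
        rw [h2]
        refine exp_le_exp.2 ?_
        have h3 : L < ⌊L⌋₊ + 1 := Nat.lt_floor_add_one L
        have h4 : c * s ≤ L * log 2 := by
          calc c * s ≤ c * (log 2 / c * L) := mul_le_mul_of_nonneg_left b2 hc.le
            _ = L * log 2 := by field_simp
        have h5 := log_pos one_lt_two
        push_cast
        nlinarith
      exact_mod_cast h1
    refine le_trans (sum_primes_le T ⌊L⌋₊ hJ) ?_
    have h6 : (1 : ℝ) ≤ ⌊L⌋₊ := by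
      have : 1 ≤ ⌊L⌋₊ := Nat.le_floor (by push_cast; exact b6)
      exact_mod_cast this
    have h7 : log (⌊L⌋₊ : ℝ) ≤ ℓ := log_le_log (by linarith) (Nat.floor_le (by linarith))
    linarith
  have hP1 : 0 < 5 + 4 * ℓ := by linarith
  have hkpos : (0 : ℝ) < k := by exact_mod_cast hk0
  have hfac : P ^ k / (k.factorial : ℝ) ≤ exp (-((c + δ) * s + log 8)) := by
    have h1 : P ^ k / (k.factorial : ℝ) ≤ (5 + 4 * ℓ) ^ k / (k.factorial : ℝ) :=
      div_le_div_of_nonneg_right (pow_le_pow_left₀ hP0 hPle k) (by positivity)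
    have h2 : (k : ℝ) ^ k / (k.factorial : ℝ) ≤ exp k := pow_div_factorial_le_exp k hkpos.le k
    have h3 : (5 + 4 * ℓ) ^ k / (k.factorial : ℝ)
        = ((5 + 4 * ℓ) ^ k / (k : ℝ) ^ k) * ((k : ℝ) ^ k / (k.factorial : ℝ)) := by
      field_simp
    have h4 : (5 + 4 * ℓ) ^ k / (k : ℝ) ^ k = exp (k * (log (5 + 4 * ℓ) - log k)) := by
      rw [exp_nat_mul, exp_sub, exp_log hP1, exp_log hkpos, div_pow]
    calc P ^ k / (k.factorial : ℝ) ≤ (5 + 4 * ℓ) ^ k / (k.factorial : ℝ) := h1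
      _ = ((5 + 4 * ℓ) ^ k / (k : ℝ) ^ k) * ((k : ℝ) ^ k / (k.factorial : ℝ)) := h3
      _ ≤ ((5 + 4 * ℓ) ^ k / (k : ℝ) ^ k) * exp k :=
          mul_le_mul_of_nonneg_left h2 (by positivity)
      _ = exp (k * (log (5 + 4 * ℓ) - log k) + k) := by rw [h4, ← exp_add]
      _ ≤ exp (-((c + δ) * s + log 8)) := by
          refine exp_le_exp.2 ?_
          have e5 : (k : ℝ) * (log k - 1 - log (5 + 4 * ℓ))
              = -(k * (log (5 + 4 * ℓ) - log k) + k) := by ring
          linarith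
  have hTN : (N : ℝ) + T ≤ 2 * N := by
    have h1 : exp (c * s) ≤ exp L := by
      refine exp_le_exp.2 ?_
      calc c * s ≤ c * (1 / c * L) := mul_le_mul_of_nonneg_left b3 hc.le
        _ = L := by field_simp
    rw [hLN] at h1
    linarith
  have hT1 : (T : ℝ) + 1 ≤ 2 * exp (c * s) := by
    have : (1 : ℝ) ≤ exp (c * s) := one_le_exp (by positivity)
    linarith
  have hV2 : (2 : ℝ) / V ≤ 2 * exp (-(v * s)) := by
    rw [exp_neg, ← div_eq_mul_inv]
    exact div_le_div_of_nonneg_left (by norm_num : (0 : ℝ) ≤ 2) (exp_pos (v * s)) hVge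
  have hfin1 : 4 * exp (c * s) * (2 * exp (-(v * s))) ≤ (1 / 2) * exp (-(δ * s)) := by
    have e1 : 4 * exp (c * s) * (2 * exp (-(v * s))) = (1 / 2) * (exp (log 16) * exp (c * s)
        * exp (-(v * s))) := by
      rw [exp_log (by norm_num)]; ring
    rw [e1]
    refine mul_le_mul_of_nonneg_left ?_ (by norm_num)
    rw [← exp_add, ← exp_add]
    refine exp_le_exp.2 ?_
    have e2 : s ≤ (v - c - δ) * s := le_mul_of_one_le_left hs0.le hvδ
    have e3 : (v - c - δ) * s = v * s - c * s - δ * s := by ring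
    linarith
  have hfin2 : 4 * exp (c * s) * exp (-((c + δ) * s + log 8)) ≤ (1 / 2) * exp (-(δ * s)) := by
    have e1 : (1 / 2) * exp (-(δ * s)) = 4 * (exp (-(log 8)) * exp (-(δ * s))) := by
      rw [exp_neg (log 8), exp_log (by norm_num)]; ring
    rw [e1, mul_assoc]
    refine mul_le_mul_of_nonneg_left ?_ (by norm_num)
    rw [← exp_add, ← exp_add]
    refine exp_le_exp.2 (le_of_eq ?_)
    ring
  have hinner : (2 : ℝ) / V + P ^ k / (k.factorial : ℝ)
      ≤ 2 * exp (-(v * s)) + exp (-((c + δ) * s + log 8)) := add_le_add hV2 hfac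
  have hinner0 : 0 ≤ (2 : ℝ) / V + P ^ k / (k.factorial : ℝ) := by positivity
  calc ((T : ℝ) + 1) * ((N + T) * (2 / V + P ^ k / (k.factorial : ℝ)))
      ≤ (2 * exp (c * s)) * ((2 * N) * (2 * exp (-(v * s)) + exp (-((c + δ) * s + log 8)))) := by
        refine mul_le_mul hT1 (mul_le_mul hTN hinner hinner0 (by positivity)) ?_ (by positivity)
        positivity
    _ = N * (4 * exp (c * s) * (2 * exp (-(v * s)))
        + 4 * exp (c * s) * exp (-((c + δ) * s + log 8))) := by ring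
    _ ≤ N * ((1 / 2) * exp (-(δ * s)) + (1 / 2) * exp (-(δ * s))) :=
        mul_le_mul_of_nonneg_left (add_le_add hfin1 hfin2) hNpos.le
    _ = N * exp (-(δ * s)) := by ring

end MP14ee70Low
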