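import Mathlib
import Pool.Agent.Lib.MP_14ee70_nt.LowE

/-!
Lower bound, for almost all `n`, for the length `t_n` of the shortest block of consecutive integers
starting at `n` that has a subset of at least two elements with square product: for fixed positive
`c` and `δ < 1/(2c) - c`, at most `N exp (-δ √(log N log log N))` of the `n ≤ N` have
`t_n ≤ exp (c √(log N log log N))`, for all large `N`.
-/

namespace MP14ee70Low.AlmostAll

open Filter Real

/-- The block `{n, n+1, …, n+t}` contains a subset with at least two elements whose product is a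
perfect square. -/
def HasSquareProduct (n t : ℕ) : Prop :=
  ∃ S : Finset ℕ, S ⊆ Finset.Icc n (n + t) ∧ 2 ≤ S.card ∧ IsSquare (∏ a ∈ S, a)

/-- `t_n`: the least `t` such that `{n, …, n+t}` contains a subset with at least two elements
whose product is a perfect square. -/
noncomputable def shortest (n : ℕ) : ℕ := sInf {t : ℕ | HasSquareProduct n t}

/-- The scale `exp (c √(log N log log N))`. -/
noncomputable def scale (c : ℝ) (N : ℕ) : ℝ := exp (c * √(log N * log (log N)))

theorem hasSquareProduct_shortest {n : ℕ} (hn : 1 ≤ n) : HasSquareProduct n (shortest n) := by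
  have h : (3 * n) ∈ {t : ℕ | HasSquareProduct n t} := by
    refine ⟨{n, 4 * n}, ?_, ?_, ?_⟩
    · intro a ha
      simp only [Finset.mem_insert, Finset.mem_singleton] at ha
      rw [Finset.mem_Icc]
      omega
    · rw [Finset.card_pair (by omega)]
    · rw [Finset.prod_pair (by omega)]
      exact ⟨2 * n, by ring⟩
  exact Nat.sInf_mem ⟨_, h⟩

theorem lower_almost_all : ∀ c δ : ℝ, 0 < c → δ < 1 / (2 * c) - c → ∀ᶠ N : ℕ in atTop,
    ({n : ℕ | 1 ≤ n ∧ n ≤ N ∧ (shortest n : ℝ) ≤ scale c N}.ncard : ℝ) ≤ N * scale (-δ) N := by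
  classical
  intro c δ hc hδ
  filter_upwards [MP14ee70Low.main_count c δ hc hδ] with N hN
  have h1 := hN (fun n => 1 ≤ n ∧ (shortest n : ℝ) ≤ scale c N) (fun n hn => by
    obtain ⟨S, hS, hcard, hsq⟩ := hasSquareProduct_shortest hn.1
    exact ⟨shortest n, hn.2, S, hS, Finset.card_pos.1 (by omega), hsq⟩)
  have h2 : {n : ℕ | 1 ≤ n ∧ n ≤ N ∧ (shortest n : ℝ) ≤ scale c N}
      = ((Finset.Icc 1 N).filter (fun n => 1 ≤ n ∧ (shortest n : ℝ) ≤ scale c N) : Finset ℕ) := by
    ext n
    simp only [Set.mem_ofPred_eq, Finset.coe_filter, Finset.mem_Icc]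
    tauto
  have h3 : (N : ℝ) * scale (-δ) N = N * exp (-(δ * √(log N * log (log N)))) := by
    rw [scale, neg_mul]
  rw [h2, Set.ncard_coe_finset, h3]
  convert h1 using 4

end MP14ee70Low.AlmostAll
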